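import Pool.Agent.W997.TS.Fast

/-!
# The asymptotic form
-/

set_option autoImplicit false

namespace Pool.Agent.W997.TS

open Finset

theorem card_leaf (d n : ℕ) : Fintype.card {v : List (Fin d) // v.length = n} = d ^ n := by
  have h := card_vector (α := Fin d) n
  rw [Fintype.card_fin] at h
  rw [← h]
  exact Fintype.card_congr (Equiv.refl _)

theorem card_inner_le {d n : ℕ} (hd : 2 ≤ d) :
    Fintype.card {v : List (Fin d) // v.length < n} + 1 ≤ d ^ n := by
  refine le_trans (Nat.add_le_add_right ?_ 1) (card_inn hd n (rootN d n) (Nat.zero_add n))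
  rw [← card_univ]
  refine card_le_card_of_injOn (fun v => (⟨v.1, v.2.le⟩ : Node d n)) ?_ ?_
  · intro v _
    rw [mem_coe, mem_inn]
    exact ⟨List.nil_suffix, v.2⟩
  · intro v _ v' _ h
    have := congrArg Subtype.val h
    exact Subtype.ext this

theorem one_le_card_inner {d n : ℕ} (hn : 1 ≤ n) :
    1 ≤ Fintype.card {v : List (Fin d) // v.length < n} :=
  Fintype.card_pos_iff.2 ⟨⟨[], hn⟩⟩

theorem card_var (d k n : ℕ) : Fintype.card (Var d k n) =
    Fintype.card {v : List (Fin d) // v.length < n} * k ^ d + d ^ n := by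
  rw [Fintype.card_sum, Fintype.card_prod, card_leaf, Fintype.card_fun, Fintype.card_fin,
    Fintype.card_fin]

theorem card_var_le {d n : ℕ} (hd : 2 ≤ d) :
    Fintype.card (Var d (d ^ n) n) ≤ d ^ (n * (d + 1)) := by
  rw [card_var]
  have h1 := card_inner_le (n := n) hd
  obtain ⟨c, hc⟩ : ∃ c, d ^ n = c + 1 := ⟨d ^ n - 1, by
    have : 1 ≤ d ^ n := Nat.one_le_pow _ _ (by omega)
    omega⟩
  have h2 : d ^ n ≤ (d ^ n) ^ d := by
    calc d ^ n = (d ^ n) ^ 1 := (pow_one _).symm
      _ ≤ (d ^ n) ^ d := Nat.pow_le_pow_right (Nat.one_le_pow _ _ (by omega)) (by omega)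
  have h3 : Fintype.card {v : List (Fin d) // v.length < n} ≤ c := by omega
  calc Fintype.card {v : List (Fin d) // v.length < n} * (d ^ n) ^ d + d ^ n
      ≤ c * (d ^ n) ^ d + (d ^ n) ^ d := Nat.add_le_add (Nat.mul_le_mul_right _ h3) h2
    _ = (c + 1) * (d ^ n) ^ d := by ring
    _ = d ^ n * (d ^ n) ^ d := by rw [hc]
    _ = d ^ (n * (d + 1)) := by rw [← pow_mul, ← pow_add]; ring_nf

theorem le_card_var {d n : ℕ} (hn : 1 ≤ n) :
    d ^ (n * d) ≤ Fintype.card (Var d (d ^ n) n) := by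
  rw [card_var, pow_mul]
  have := one_le_card_inner (d := d) hn
  nlinarith [Nat.zero_le (d ^ n), Nat.zero_le ((d ^ n) ^ d)]

theorem card_node_le {d n : ℕ} (hd : 2 ≤ d) :
    Fintype.card (Node d n) ≤ Fintype.card (Var d (d ^ n) n) := by
  classical
  have h1 : Fintype.card (Node d n) ≤
      Fintype.card ({v : List (Fin d) // v.length < n} ⊕ {v : List (Fin d) // v.length = n}) := by
    refine Fintype.card_le_of_injective (fun v : Node d n =>
      if h : v.1.length < n then (Sum.inl ⟨v.1, h⟩ :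
        {v : List (Fin d) // v.length < n} ⊕ {v : List (Fin d) // v.length = n})
      else Sum.inr ⟨v.1, le_antisymm v.2 (not_lt.1 h)⟩) ?_
    intro v w h
    apply Subtype.ext
    simp only at h
    split_ifs at h with h1 h2 h2
    · simpa using h
    · simpa using h
  refine h1.trans ?_
  rw [Fintype.card_sum, card_leaf, card_var]
  apply Nat.add_le_add_right
  exact Nat.le_mul_of_pos_right _ (by positivity)

theorem eight_mul_le : ∀ n : ℕ, 6 ≤ n → 8 * n ≤ 2 ^ n := by
  intro n hn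
  induction n, hn using Nat.le_induction with
  | base => norm_num
  | succ n hn ih =>
    rw [pow_succ]
    omega

/-- **The threshold.** -/
theorem threshold (δ : ℝ) (hδ : 0 < δ) : ∃ d : ℕ, 2 ≤ d ∧ ∃ ε : ℝ, 0 < ε ∧ ∃ c : ℝ, 0 < c ∧
    ∃ n₀ : ℕ, ∀ n : ℕ, n₀ ≤ n →
      (∃ P : DBP (Var d (d ^ n) n) (d ^ n),
        Real.log P.size ≤ 4 * (Real.log (Fintype.card (Var d (d ^ n) n))) ^ 2 ∧
        ∀ x : Input d (d ^ n) n, ∃ t m : ℕ,
          (t : ℝ) ≤ (Fintype.card (Var d (d ^ n) n) : ℝ) ^ δ ∧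
          P.Run x t m (bit (rootValue x))) ∧
      (∀ (P : DBP (Var d (d ^ n) n) (d ^ n)) (T M : Input d (d ^ n) n → ℕ)
        (R : Input d (d ^ n) n → Bool),
        Real.log P.size ≤ ε * (Real.log (Fintype.card (Var d (d ^ n) n))) ^ 2 →
        (∀ x, P.Run x (T x) (M x) (R x)) →
        (1 / 2 + (Fintype.card (Var d (d ^ n) n) : ℝ) ^ (-c)) *
            Fintype.card (Input d (d ^ n) n) ≤
          (univ.filter (fun x => R x = bit (rootValue x))).card →
        (Fintype.card (Var d (d ^ n) n) : ℝ) ^ (1 - δ) * Fintype.card (Input d (d ^ n) n) ≤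
          ∑ x, (M x : ℝ)) := by
  set δ' : ℝ := min δ (1 / 2) with hδ'
  have hδ'0 : 0 < δ' := lt_min hδ (by norm_num)
  have hδ'1 : δ' ≤ 1 / 2 := min_le_right _ _
  have hδ'δ : δ' ≤ δ := min_le_left _ _
  set c : ℕ := ⌈2 / δ'⌉₊ with hc
  have hc1 : 2 / δ' ≤ c := Nat.le_ceil _
  have hc2 : 2 ≤ c := by
    have h0 : (4 : ℝ) ≤ 2 / δ' := by
      rw [le_div_iff₀ hδ'0]
      linarith
    have h1 : (4 : ℝ) ≤ c := h0.trans hc1
    have h2 : 4 ≤ c := by exact_mod_cast h1
    omega
  set d : ℕ := 2 * c with hd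
  have hd4 : 4 ≤ d := by omega
  have hd2 : 2 ≤ d := by omega
  have hdδ : 4 ≤ δ' * d := by
    have h1 : 2 ≤ δ' * c := by
      rw [div_le_iff₀ hδ'0] at hc1
      linarith
    rw [hd]
    push_cast
    linarith
  have hdR4 : (4 : ℝ) ≤ d := by exact_mod_cast hd4
  have hdR : (2 : ℝ) ≤ d := by linarith
  have hd0 : (0 : ℝ) < d := by linarith
  have hlogd : 0 < Real.log d := Real.log_pos (by linarith)
  have hlogd2 : 1 / 2 < Real.log d := by
    have h1 : Real.log 2 ≤ Real.log d := Real.log_le_log (by norm_num) hdR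
    have h2 := Real.log_two_gt_d9
    linarith
  refine ⟨d, hd2, 1 / (16 * ((d : ℝ) + 1) ^ 2 * Real.log d), by positivity,
    1 / (8 * ((d : ℝ) + 1)), by positivity, 6, ?_⟩
  intro n hn
  set N : ℕ := Fintype.card (Var d (d ^ n) n) with hN
  have hNle : N ≤ d ^ (n * (d + 1)) := card_var_le hd2
  have hNge : d ^ (n * d) ≤ N := le_card_var (by omega)
  have hN1 : 1 ≤ N := le_trans (Nat.one_le_pow _ _ (by omega)) hNge
  have hN1R : (1 : ℝ) ≤ N := by exact_mod_cast hN1
  have hN0R : (0 : ℝ) < N := by linarith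
  have hnR : (6 : ℝ) ≤ n := by exact_mod_cast hn
  have hNleR : (N : ℝ) ≤ (d : ℝ) ^ ((n : ℝ) * (d + 1)) := by
    have h3 : (d : ℝ) ^ ((n : ℝ) * (d + 1)) = ((d ^ (n * (d + 1)) : ℕ) : ℝ) := by
      rw [Nat.cast_pow, ← Real.rpow_natCast]
      push_cast
      rfl
    rw [h3]
    exact_mod_cast hNle
  have hlogN : Real.log N ≤ n * (d + 1) * Real.log d := by
    calc Real.log N ≤ Real.log ((d : ℝ) ^ (n * (d + 1))) := by
          apply Real.log_le_log (by linarith)
          exact_mod_cast hNle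
      _ = n * (d + 1) * Real.log d := by rw [Real.log_pow]; push_cast; ring
  have hlogN' : n * d * Real.log d ≤ Real.log N := by
    calc n * d * Real.log d = Real.log ((d : ℝ) ^ (n * d)) := by
          rw [Real.log_pow]; push_cast; ring
      _ ≤ Real.log N := by
          apply Real.log_le_log (by positivity)
          exact_mod_cast hNge
  have hlogN0 : 0 ≤ Real.log N := Real.log_nonneg hN1R
  constructor
  · -- the fast program
    refine ⟨fast d (d ^ n) n (by omega) (by positivity), ?_, ?_⟩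
    · have h1 : (fast d (d ^ n) n (by omega) (by positivity)).size ≤ N ^ (n + 2) := by
        rw [fast_size]
        calc Fintype.card (Node d n) * ((d ^ n) ^ d) ^ (n + 1) ≤ N * N ^ (n + 1) := by
              apply Nat.mul_le_mul (card_node_le hd2)
              apply Nat.pow_le_pow_left
              rw [← pow_mul]
              exact hNge
          _ = N ^ (n + 2) := by ring
      have h0 : 0 < (fast d (d ^ n) n (by omega) (by positivity)).size :=
        Fintype.card_pos_iff.2 ⟨DBP.start _⟩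
      have h2 : Real.log (fast d (d ^ n) n (by omega) (by positivity)).size ≤
          (n + 2) * Real.log N := by
        calc Real.log (fast d (d ^ n) n (by omega) (by positivity)).size
            ≤ Real.log ((N : ℝ) ^ (n + 2)) := by
              apply Real.log_le_log (by exact_mod_cast h0)
              exact_mod_cast h1
          _ = (n + 2) * Real.log N := by rw [Real.log_pow]; push_cast; ring
      refine h2.trans ?_
      have h3 : (n : ℝ) + 2 ≤ 4 * Real.log N := by
        have h4 : (n : ℝ) ≤ n * d * Real.log d := by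
          have h5 : 1 ≤ (d : ℝ) * Real.log d := by nlinarith
          calc (n : ℝ) = n * 1 := (mul_one _).symm
            _ ≤ n * ((d : ℝ) * Real.log d) := mul_le_mul_of_nonneg_left h5 (by linarith)
            _ = n * d * Real.log d := by ring
        linarith
      calc ((n : ℝ) + 2) * Real.log N ≤ (4 * Real.log N) * Real.log N :=
            mul_le_mul_of_nonneg_right h3 hlogN0
        _ = 4 * (Real.log N) ^ 2 := by ring
    · intro x
      obtain ⟨m, -, hrun⟩ := fast_run (d := d) (k := d ^ n) (by omega) (by positivity) x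
      refine ⟨cnt d n, m, ?_, hrun⟩
      have h1 : (cnt d n : ℝ) ≤ (d : ℝ) ^ (n + 1) := by
        have := cnt_le d hd2 n
        have h2 : cnt d n ≤ d ^ (n + 1) := by omega
        exact_mod_cast h2
      calc (cnt d n : ℝ) ≤ (d : ℝ) ^ (n + 1) := h1
        _ = (d : ℝ) ^ ((n : ℝ) + 1) := by
            rw [← Real.rpow_natCast]; push_cast; rfl
        _ ≤ (d : ℝ) ^ (((n : ℝ) * d) * δ') := by
            apply Real.rpow_le_rpow_of_exponent_le (by linarith)
            nlinarith
        _ = ((d : ℝ) ^ ((n : ℝ) * d)) ^ δ' := Real.rpow_mul (by positivity) _ _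
        _ ≤ (N : ℝ) ^ δ' := by
            apply Real.rpow_le_rpow (by positivity) _ hδ'0.le
            have h3 : (d : ℝ) ^ ((n : ℝ) * d) = ((d ^ (n * d) : ℕ) : ℝ) := by
              rw [Nat.cast_pow, ← Real.rpow_natCast]
              push_cast
              rfl
            rw [h3]
            exact_mod_cast hNge
        _ ≤ (N : ℝ) ^ δ := Real.rpow_le_rpow_of_exponent_le hN1R hδ'δ
  · -- small programs read many variables
    intro P T M R hS hrun hag
    set I : ℕ := Fintype.card (Input d (d ^ n) n) with hI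
    set h : ℕ := n / 2 with hh
    set γ : ℝ := (N : ℝ) ^ (-(1 / (8 * ((d : ℝ) + 1)))) with hγ
    have hγ0 : 0 < γ := Real.rpow_pos_of_pos hN0R _
    have hγge : (d : ℝ) ^ (-((n : ℝ) / 8)) ≤ γ := by
      calc (d : ℝ) ^ (-((n : ℝ) / 8)) =
            ((d : ℝ) ^ ((n : ℝ) * (d + 1))) ^ (-(1 / (8 * ((d : ℝ) + 1)))) := by
            rw [← Real.rpow_mul hd0.le]
            congr 1
            field_simp
        _ ≤ (N : ℝ) ^ (-(1 / (8 * ((d : ℝ) + 1)))) := by
            apply Real.rpow_le_rpow_of_nonpos hN0R hNleR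
            have : 0 < 1 / (8 * ((d : ℝ) + 1)) := by positivity
            linarith
    have hγ2 : (d : ℝ) ^ (-((n : ℝ) / 4)) ≤ γ ^ 2 := by
      calc (d : ℝ) ^ (-((n : ℝ) / 4)) = ((d : ℝ) ^ (-((n : ℝ) / 8))) ^ 2 := by
            rw [← Real.rpow_natCast, ← Real.rpow_mul hd0.le]
            congr 1
            push_cast
            ring
        _ ≤ γ ^ 2 := pow_le_pow_left₀ (by positivity) hγge 2
    have hh1 : 1 ≤ h := by omega
    have hhn : h ≤ n := by omega
    have hsz : P.size ≤ d ^ n * (d ^ h) ^ h := by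
      have hP0 : 0 < P.size := Fintype.card_pos_iff.2 ⟨P.start⟩
      have h1 : Real.log P.size ≤ Real.log ((d : ℝ) ^ (h * h)) := by
        refine hS.trans ?_
        have h2 : (Real.log N) ^ 2 ≤ (n * (d + 1) * Real.log d) ^ 2 :=
          pow_le_pow_left₀ hlogN0 hlogN 2
        have h3 : (n : ℝ) / 4 ≤ h := by
          have h4 : n ≤ 4 * h := by omega
          have h5 : (n : ℝ) ≤ 4 * h := by exact_mod_cast h4
          linarith
        calc 1 / (16 * ((d : ℝ) + 1) ^ 2 * Real.log d) * (Real.log N) ^ 2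
            ≤ 1 / (16 * ((d : ℝ) + 1) ^ 2 * Real.log d) * (n * (d + 1) * Real.log d) ^ 2 :=
              mul_le_mul_of_nonneg_left h2 (by positivity)
          _ = ((n : ℝ) / 4) * ((n : ℝ) / 4) * Real.log d := by
              field_simp
              norm_num
          _ ≤ ((h : ℝ) * h) * Real.log d := by
              apply mul_le_mul_of_nonneg_right _ hlogd.le
              exact mul_le_mul h3 h3 (by positivity) (by positivity)
          _ = Real.log ((d : ℝ) ^ (h * h)) := by rw [Real.log_pow]; push_cast; ring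
      have h2 : (P.size : ℝ) ≤ (d : ℝ) ^ (h * h) :=
        (Real.log_le_log_iff (by exact_mod_cast hP0) (by positivity)).1 h1
      have h3 : P.size ≤ d ^ (h * h) := by exact_mod_cast h2
      calc P.size ≤ d ^ (h * h) := h3
        _ = (d ^ h) ^ h := pow_mul _ _ _
        _ ≤ d ^ n * (d ^ h) ^ h := Nat.le_mul_of_pos_left _ (by positivity)
    have hev : Even (d ^ n) := by
      apply Even.pow_of_ne_zero _ (by omega)
      rw [hd]
      exact even_two_mul c
    have h4n : 4 * (n : ℝ) ≤ γ ^ 2 * ((d ^ n : ℕ) : ℝ) := by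
      have e1 : (8 * n : ℝ) ≤ 2 ^ n := by exact_mod_cast eight_mul_le n hn
      have e2 : (2 : ℝ) ^ n ≤ (d : ℝ) ^ ((n : ℝ) / 2) := by
        calc (2 : ℝ) ^ n = (4 : ℝ) ^ ((n : ℝ) / 2) := by
              rw [show (4 : ℝ) = 2 ^ (2 : ℝ) by norm_num, ← Real.rpow_mul (by norm_num),
                ← Real.rpow_natCast]
              congr 1
              ring
          _ ≤ (d : ℝ) ^ ((n : ℝ) / 2) := Real.rpow_le_rpow (by norm_num) hdR4 (by positivity)
      have e3 : (d : ℝ) ^ ((n : ℝ) / 2) ≤ (d : ℝ) ^ (-((n : ℝ) / 4) + n) := by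
        apply Real.rpow_le_rpow_of_exponent_le (by linarith)
        linarith
      have e4 : (d : ℝ) ^ (-((n : ℝ) / 4) + n) = (d : ℝ) ^ (-((n : ℝ) / 4)) * (d : ℝ) ^ n := by
        rw [Real.rpow_add hd0, Real.rpow_natCast]
      calc 4 * (n : ℝ) ≤ 8 * n := by linarith
        _ ≤ 2 ^ n := e1
        _ ≤ (d : ℝ) ^ (-((n : ℝ) / 4)) * (d : ℝ) ^ n := by rw [← e4]; exact e2.trans e3
        _ ≤ γ ^ 2 * (d : ℝ) ^ n := mul_le_mul_of_nonneg_right hγ2 (by positivity)
        _ = γ ^ 2 * ((d ^ n : ℕ) : ℝ) := by push_cast; rfl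
    have main := tradeoff d (d ^ n) n h (d ^ h) γ hγ0 hd2 hh1 hhn hev
      (Nat.pow_le_pow_right (by omega) hhn) h4n (Nat.one_le_pow _ _ (by omega)) P hsz T M R
      hrun hag
    have main' : γ ^ 2 * (d : ℝ) ^ (n - h) * ((d : ℝ) ^ n) ^ (d - 1) * I ≤
        4 * d * (d : ℝ) ^ h * ∑ x, (M x : ℝ) := by
      have := main
      push_cast at this
      exact this
    have hTnn : (0 : ℝ) ≤ ∑ x, (M x : ℝ) := sum_nonneg fun x _ => by positivity
    have h16 : (4 : ℝ) * d * (d : ℝ) ^ h ≤ (d : ℝ) ^ (h + 2) := by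
      calc (4 : ℝ) * d * (d : ℝ) ^ h ≤ (d : ℝ) * d * (d : ℝ) ^ h := by
            apply mul_le_mul_of_nonneg_right _ (by positivity)
            exact mul_le_mul_of_nonneg_right hdR4 hd0.le
        _ = (d : ℝ) ^ (h + 2) := by ring
    have hpow : γ ^ 2 * (d : ℝ) ^ (n - h) * ((d : ℝ) ^ n) ^ (d - 1) =
        γ ^ 2 * (d : ℝ) ^ ((n - h) + n * (d - 1)) := by
      rw [← pow_mul, mul_assoc, ← pow_add]
    rw [hpow] at main'
    have main2 : γ ^ 2 * (d : ℝ) ^ ((n - h) + n * (d - 1)) * I ≤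
        (d : ℝ) ^ (h + 2) * ∑ x, (M x : ℝ) :=
      main'.trans (mul_le_mul_of_nonneg_right h16 hTnn)
    -- the exponents
    have hexp : (N : ℝ) ^ (1 - δ) * (d : ℝ) ^ (h + 2) ≤
        γ ^ 2 * (d : ℝ) ^ ((n - h) + n * (d - 1)) := by
      have h1 : (N : ℝ) ^ (1 - δ) ≤ (d : ℝ) ^ (((n : ℝ) * (d + 1)) * (1 - δ')) := by
        calc (N : ℝ) ^ (1 - δ) ≤ (N : ℝ) ^ (1 - δ') :=
              Real.rpow_le_rpow_of_exponent_le hN1R (by linarith)
          _ ≤ ((d : ℝ) ^ ((n : ℝ) * (d + 1))) ^ (1 - δ') :=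
              Real.rpow_le_rpow (by positivity) hNleR (by linarith)
          _ = (d : ℝ) ^ (((n : ℝ) * (d + 1)) * (1 - δ')) := (Real.rpow_mul hd0.le _ _).symm
      have h2 : (d : ℝ) ^ (h + 2) = (d : ℝ) ^ ((h : ℝ) + 2) := by
        rw [← Real.rpow_natCast]; push_cast; rfl
      have h3 : (d : ℝ) ^ ((n - h) + n * (d - 1)) =
          (d : ℝ) ^ (((n : ℝ) - h) + n * ((d : ℝ) - 1)) := by
        rw [← Real.rpow_natCast]
        congr 1
        rw [Nat.cast_add, Nat.cast_sub hhn, Nat.cast_mul, Nat.cast_sub (by omega : 1 ≤ d)]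
        push_cast
        ring
      rw [h2, h3]
      calc (N : ℝ) ^ (1 - δ) * (d : ℝ) ^ ((h : ℝ) + 2)
          ≤ (d : ℝ) ^ (((n : ℝ) * (d + 1)) * (1 - δ')) * (d : ℝ) ^ ((h : ℝ) + 2) :=
            mul_le_mul_of_nonneg_right h1 (by positivity)
        _ = (d : ℝ) ^ (((n : ℝ) * (d + 1)) * (1 - δ') + ((h : ℝ) + 2)) :=
            (Real.rpow_add hd0 _ _).symm
        _ ≤ (d : ℝ) ^ (-((n : ℝ) / 4) + (((n : ℝ) - h) + n * ((d : ℝ) - 1))) := by
            apply Real.rpow_le_rpow_of_exponent_le (by linarith)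
            have h4 : (h : ℝ) ≤ n / 2 := by
              have h5 : 2 * h ≤ n := by omega
              have h6 : (2 : ℝ) * h ≤ n := by exact_mod_cast h5
              linarith
            have h5 : (4 : ℝ) * n ≤ (δ' * d) * n := mul_le_mul_of_nonneg_right hdδ (by linarith)
            have h6 : 0 ≤ δ' * n := by positivity
            nlinarith
        _ = (d : ℝ) ^ (-((n : ℝ) / 4)) * (d : ℝ) ^ (((n : ℝ) - h) + n * ((d : ℝ) - 1)) :=
            Real.rpow_add hd0 _ _
        _ ≤ γ ^ 2 * (d : ℝ) ^ (((n : ℝ) - h) + n * ((d : ℝ) - 1)) :=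
            mul_le_mul_of_nonneg_right hγ2 (by positivity)
    have hfin : (N : ℝ) ^ (1 - δ) * I * (d : ℝ) ^ (h + 2) ≤
        (∑ x, (M x : ℝ)) * (d : ℝ) ^ (h + 2) := by
      calc (N : ℝ) ^ (1 - δ) * I * (d : ℝ) ^ (h + 2)
          = ((N : ℝ) ^ (1 - δ) * (d : ℝ) ^ (h + 2)) * I := by ring
        _ ≤ (γ ^ 2 * (d : ℝ) ^ ((n - h) + n * (d - 1))) * I :=
            mul_le_mul_of_nonneg_right hexp (by positivity)
        _ ≤ (d : ℝ) ^ (h + 2) * ∑ x, (M x : ℝ) := main2
        _ = (∑ x, (M x : ℝ)) * (d : ℝ) ^ (h + 2) := by ring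
    exact le_of_mul_le_mul_right hfin (by positivity)

end Pool.Agent.W997.TS
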