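import Pool.Agent.W997.TS.Relev

/-!
# Programs with few errors read the relevant variables
-/

set_option autoImplicit false

namespace Pool.Agent.W997.TS

open Finset

section Path

variable {V : Type} {k : ℕ} (P : DBP V k)

theorem path_unique {x : V → Fin k} {r r' : Bool} : ∀ (l l' : List P.State) (q : P.State),
    P.IsPath x q l r → P.IsPath x q l' r' → l = l' ∧ r = r'
  | [], [], q, h, h' => by
    have h1 : P.next q (x (P.query q)) = Sum.inr r := h
    have h2 : P.next q (x (P.query q)) = Sum.inr r' := h'
    rw [h1] at h2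
    exact ⟨rfl, Sum.inr.inj h2⟩
  | [], q' :: l', q, h, h' => by
    have h1 : P.next q (x (P.query q)) = Sum.inr r := h
    have h2 := h'.1
    rw [h1] at h2
    cases h2
  | q' :: l, [], q, h, h' => by
    have h1 : P.next q (x (P.query q)) = Sum.inr r' := h'
    have h2 := h.1
    rw [h1] at h2
    cases h2
  | q1 :: l, q2 :: l', q, h, h' => by
    have h1 := h.1
    have h2 := h'.1
    rw [h1] at h2
    have h3 : q1 = q2 := Sum.inl.inj h2
    subst h3
    obtain ⟨h4, h5⟩ := path_unique l l' q1 h.2 h'.2
    exact ⟨by rw [h4], h5⟩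

theorem path_congr {x x' : V → Fin k} {r : Bool} : ∀ (l : List P.State) (q : P.State),
    (∀ q' ∈ q :: l, x (P.query q') = x' (P.query q')) → P.IsPath x q l r → P.IsPath x' q l r
  | [], q, hx, h => by
    have h1 : P.next q (x (P.query q)) = Sum.inr r := h
    rw [hx q List.mem_cons_self] at h1
    exact h1
  | q1 :: l, q, hx, h => by
    refine ⟨?_, path_congr l q1 (fun q' hq' => hx q' (List.mem_cons_of_mem _ hq')) h.2⟩
    have h1 := h.1
    rwa [hx q List.mem_cons_self] at h1

end Path

variable {d k n : ℕ}

theorem chi_eq (c : Fin k) : chi c = if bit c = true then 1 else -1 := by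
  unfold chi bit
  by_cases h : c.val % 2 = 0 <;> simp [h]

variable (P : DBP (Var d k n) k)

/-- Few inputs are such that the thrifty variable of `u` is not read. -/
theorem not_read_bound (hk : Even k) (hk0 : 0 < k) (u : Node d n)
    (L : Input d k n → List P.State) (R : Input d k n → Bool)
    (hLR : ∀ x, P.IsPath x P.start (L x) (R x)) (E Err : Finset (Input d k n))
    (hE : ∀ x, x ∈ E ↔ ∀ q ∈ P.start :: L x, P.query q ≠ pos (valF x) u)
    (hErr : ∀ x, R x ≠ bit (rootValue x) → x ∈ Err) (γ : ℝ) (hγ : 0 ≤ γ)
    (hγk : 4 * (1 + (u.1.length : ℝ)) ≤ γ ^ 2 * k) :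
    (E.card : ℝ) ≤ 2 * Err.card + γ / 2 * Fintype.card (Input d k n) := by
  classical
  -- modification does not change the computation
  have hmod : ∀ x ∈ E, ∀ y, L (mod u x y) = L x ∧ R (mod u x y) = R x := by
    intro x hx y
    have h1 : P.IsPath (mod u x y) P.start (L x) (R x) := by
      refine path_congr P (L x) P.start ?_ (hLR x)
      intro q hq
      unfold mod
      rw [Function.update_of_ne ((hE x).1 hx q hq)]
    exact path_unique P _ _ _ (hLR _) h1
  set e : Input d k n → ℕ := fun x =>
    (univ.filter (fun y : Fin k => R x ≠ bit (valF (mod u x y) (rootN d n)))).card with he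
  -- double counting
  have hdc : ∑ x ∈ E, e x ≤ Err.card * k := by
    have h1 : ∑ x ∈ E, e x = ((E ×ˢ (univ : Finset (Fin k))).filter
        (fun p => R p.1 ≠ bit (valF (mod u p.1 p.2) (rootN d n)))).card := by
      rw [card_filter, sum_product]
      apply sum_congr rfl
      intro x _
      simp only [he, card_filter]
    have h2 : (Err ×ˢ (univ : Finset (Fin k))).card = Err.card * k := by
      rw [card_product, card_univ, Fintype.card_fin]
    rw [h1, ← h2]
    refine card_le_card_of_injOn (fun p => (mod u p.1 p.2, p.1 (pos (valF p.1) u))) ?_ ?_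
    · rintro ⟨x, y⟩ hp
      obtain ⟨hp1, hp2⟩ := mem_filter.1 (mem_coe.1 hp)
      have hxE : x ∈ E := (mem_product.1 hp1).1
      simp only at hp2
      refine mem_coe.2 (mem_product.2 ⟨hErr _ ?_, mem_univ _⟩)
      simp only
      rw [(hmod x hxE y).2, rootValue_eq]
      exact hp2
    · rintro ⟨x, y⟩ _ ⟨x', y'⟩ _ h
      obtain ⟨h1, h2⟩ := Prod.mk.inj h
      simp only at h1 h2
      have h3 : x = x' := by
        have a1 : mod u (mod u x y) (x (pos (valF x) u)) = x := by
          rw [mod_mod, mod_self]
        have a2 : mod u (mod u x' y') (x' (pos (valF x') u)) = x' := by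
          rw [mod_mod, mod_self]
        rw [← a1, ← a2, h1, h2]
      subst h3
      have h4 : y = y' := by
        have := congrArg (fun w => valF w u) h1
        simpa only [valF_mod_self] using this
      rw [h4]
  -- the number of errors in a class
  have hcl : ∀ x, (k : ℤ) - |bias u x| ≤ 2 * e x := by
    intro x
    set p := (univ.filter (fun y : Fin k => bit (valF (mod u x y) (rootN d n)) = true)).card
      with hp
    set m := (univ.filter (fun y : Fin k => ¬ bit (valF (mod u x y) (rootN d n)) = true)).card
      with hm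
    have hpm : p + m = k := by
      rw [hp, hm, card_filter_add_card_filter_not, card_univ, Fintype.card_fin]
    have hb : bias u x = (p : ℤ) - m := by
      unfold bias
      simp only [chi_eq]
      rw [sum_ite, sum_const, sum_const, ← hp, ← hm]
      simp
      ring
    have hkz : (k : ℤ) = p + m := by exact_mod_cast hpm.symm
    have hb1 : bias u x ≤ |bias u x| := le_abs_self _
    have hb2 : - bias u x ≤ |bias u x| := neg_le_abs _
    cases hR : R x with
    | true =>
      have h1 : e x = m := by
        rw [he, hm]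
        simp only
        congr 1
        ext y
        simp only [mem_filter, mem_univ, true_and, hR]
        exact ⟨fun h h' => h h'.symm, fun h h' => h h'.symm⟩
      rw [h1]
      omega
    | false =>
      have h1 : e x = p := by
        rw [he, hp]
        simp only
        congr 1
        ext y
        simp only [mem_filter, mem_univ, true_and, hR]
        cases bit (valF (mod u x y) (rootN d n)) <;> simp
      rw [h1]
      omega
  set I : ℝ := (Fintype.card (Input d k n) : ℝ) with hI
  have hI0 : 0 ≤ I := by rw [hI]; positivity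
  set A : ℝ := ∑ x ∈ E, |(bias u x : ℝ)| with hA
  have hA0 : 0 ≤ A := sum_nonneg fun x _ => abs_nonneg _
  have hk0R : (0 : ℝ) < k := by exact_mod_cast hk0
  -- the sum of the biases
  have h1 : (E.card : ℝ) * k - A ≤ 2 * (Err.card * k) := by
    calc (E.card : ℝ) * k - A = ∑ x ∈ E, ((k : ℝ) - |(bias u x : ℝ)|) := by
          rw [sum_sub_distrib, sum_const, nsmul_eq_mul]
      _ ≤ ∑ x ∈ E, (2 * e x : ℝ) := by
          apply sum_le_sum
          intro x _
          have := hcl x
          have h2 : (((k : ℤ) - |bias u x| : ℤ) : ℝ) ≤ ((2 * e x : ℤ) : ℝ) := by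
            exact_mod_cast this
          push_cast at h2
          exact h2
      _ = 2 * ((∑ x ∈ E, e x : ℕ) : ℝ) := by
          push_cast
          rw [mul_sum]
      _ ≤ 2 * (Err.card * k) := by
          apply mul_le_mul_of_nonneg_left _ (by norm_num)
          exact_mod_cast hdc
  have h2 : A ^ 2 ≤ I * (k * (1 + u.1.length) * I) := by
    have h3 : A ^ 2 ≤ E.card * ∑ x ∈ E, |(bias u x : ℝ)| ^ 2 := sq_sum_le_card_mul_sum_sq
    have h4 : (E.card : ℝ) ≤ I := by
      rw [hI]
      exact_mod_cast card_le_univ E
    have h5 : ∑ x ∈ E, |(bias u x : ℝ)| ^ 2 ≤ k * (1 + u.1.length) * I := by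
      calc ∑ x ∈ E, |(bias u x : ℝ)| ^ 2 ≤ ∑ x : Input d k n, |(bias u x : ℝ)| ^ 2 :=
            sum_le_univ_sum_of_nonneg (fun x => sq_nonneg _)
        _ = ((∑ x : Input d k n, (bias u x) ^ 2 : ℤ) : ℝ) := by
            push_cast
            apply sum_congr rfl
            intro x _
            rw [sq_abs]
        _ ≤ ((k * (1 + u.1.length) * Fintype.card (Input d k n) : ℤ) : ℝ) := by
            exact_mod_cast sum_bias_sq hk u
        _ = k * (1 + u.1.length) * I := by push_cast; rfl
    calc A ^ 2 ≤ E.card * ∑ x ∈ E, |(bias u x : ℝ)| ^ 2 := h3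
      _ ≤ I * (k * (1 + u.1.length) * I) :=
          mul_le_mul h4 h5 (sum_nonneg fun x _ => sq_nonneg _) hI0
  have h3 : A ≤ γ / 2 * I * k := by
    refine (pow_le_pow_iff_left₀ hA0 (by positivity) two_ne_zero).1 ?_
    calc A ^ 2 ≤ I * (k * (1 + u.1.length) * I) := h2
      _ = (k * I ^ 2 / 4) * (4 * (1 + (u.1.length : ℝ))) := by ring
      _ ≤ (k * I ^ 2 / 4) * (γ ^ 2 * k) := mul_le_mul_of_nonneg_left hγk (by positivity)
      _ = (γ / 2 * I * k) ^ 2 := by ring
  have h4 : (E.card : ℝ) * k ≤ (2 * Err.card + γ / 2 * I) * k := by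
    calc (E.card : ℝ) * k ≤ 2 * (Err.card * k) + A := by linarith
      _ ≤ 2 * (Err.card * k) + γ / 2 * I * k := by linarith
      _ = (2 * Err.card + γ / 2 * I) * k := by ring
  exact le_of_mul_le_mul_right h4 hk0R

end Pool.Agent.W997.TS
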