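import Pool.Agent.W997.TS.Defs

/-!
# The counting lemma
-/

set_option autoImplicit false

namespace Pool.Agent.W997.TS

open Finset

variable {d k n : ℕ}

/-- The node of a variable. -/
def nodeOf : Var d k n → Node d n
  | Sum.inl w => ⟨w.1.1, w.1.2.le⟩
  | Sum.inr v => ⟨v.1, v.2.le⟩

/-- The child `s` of an inner node. -/
def kid (v : Node d n) (s : Fin d) : Node d n :=
  if h : v.1.length < n then ⟨s :: v.1, h⟩ else v

theorem kid_val {v : Node d n} (h : v.1.length < n) (s : Fin d) : (kid v s).1 = s :: v.1 := by
  unfold kid
  rw [dif_pos h]

/-- The parent of a node. -/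
def par (c : Node d n) : Node d n := ⟨c.1.tail, by have := c.2; rw [List.length_tail]; omega⟩

theorem par_val (c : Node d n) : (par c).1 = c.1.tail := rfl

theorem par_kid {v : Node d n} (h : v.1.length < n) (s : Fin d) : par (kid v s) = v := by
  apply Subtype.ext
  rw [par_val, kid_val h]
  rfl

theorem kid_inj {v : Node d n} (h : v.1.length < n) : Function.Injective (kid v) := by
  intro s s' hs
  have h1 := congrArg Subtype.val hs
  rw [kid_val h, kid_val h] at h1
  exact (List.cons.inj h1).1

theorem exists_kid {c : Node d n} (hc : c.1 ≠ []) :
    (par c).1.length < n ∧ ∃ s, c = kid (par c) s := by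
  have h1 := c.2
  obtain ⟨s, l, hl⟩ := List.exists_cons_of_ne_nil hc
  have h2 : (par c).1 = l := by rw [par_val, hl]; rfl
  have h3 : (par c).1.length < n := by rw [h2]; rw [hl] at h1; simpa using h1
  refine ⟨h3, s, ?_⟩
  apply Subtype.ext
  rw [kid_val h3, h2, hl]

/-- The variable which has to be read at `v` if the values of the nodes are given by `z`. -/
def pos (z : Node d n → Fin k) (v : Node d n) : Var d k n :=
  if h : v.1.length < n then Sum.inl (⟨v.1, h⟩, fun s => z (kid v s))
  else Sum.inr ⟨v.1, le_antisymm v.2 (not_lt.1 h)⟩

theorem nodeOf_pos (z : Node d n → Fin k) (v : Node d n) : nodeOf (pos z v) = v := by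
  unfold pos
  split_ifs with h <;> rfl

theorem pos_eq_iff (z w : Node d n → Fin k) (v : Node d n) :
    pos z v = pos w v ↔ (v.1.length < n → ∀ s, z (kid v s) = w (kid v s)) := by
  unfold pos
  split_ifs with h
  · simp only [Sum.inl.injEq, Prod.mk.injEq, true_and, h, true_implies]
    exact funext_iff
  · simp [h]

/-- The input with background `g` in which the values of the nodes are given by `z`. -/
def inp (g : Input d k n) (z : Node d n → Fin k) : Input d k n := fun w =>
  if w = pos z (nodeOf w) then z (nodeOf w) else g w

theorem inp_pos (g : Input d k n) (z : Node d n → Fin k) (v : Node d n) :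
    inp g z (pos z v) = z v := by
  unfold inp
  rw [nodeOf_pos, if_pos rfl]

section

variable (P : DBP (Var d k n) k)

/-- The parent of `c` is evaluated before the next evaluation of `c`. -/
def Live (z : Node d n → Fin k) (c : Node d n) : List P.State → Prop
  | [] => False
  | q :: l => P.query q = pos z (par c) ∨ (P.query q ≠ pos z c ∧ Live z c l)

/-- The variables of the node `p` which are read in the states of a list. -/
def asked (p : Node d n) (l : List P.State) : Finset (Var d k n) :=
  (l.map P.query).toFinset.filter (fun w => nodeOf w = p)

theorem asked_cons (p : Node d n) (q : P.State) (l : List P.State) :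
    asked P p l ⊆ asked P p (q :: l) := by
  intro w hw
  simp only [asked, mem_filter, List.mem_toFinset, List.mem_map, List.mem_cons] at hw ⊢
  obtain ⟨⟨q', hq', rfl⟩, h⟩ := hw
  exact ⟨⟨q', Or.inr hq', rfl⟩, h⟩

theorem mem_asked_self (q : P.State) (l : List P.State) :
    P.query q ∈ asked P (nodeOf (P.query q)) (q :: l) := by
  simp [asked]

/-- **The counting lemma.** -/
theorem count (g : Input d k n) (t : ℕ) : ∀ (T : ℕ) (q : P.State) (U : Finset (Node d n))
    (Z : Node d n → Finset (Var d k n)) (X : Finset (Node d n → Fin k)),
    (∀ c ∈ U, c.1 ≠ [] ∧ par c ∉ U) →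
    (∀ z ∈ X, ∀ w ∈ X, ∀ c, c ∉ U → z c = w c) →
    (∀ z ∈ X, ∀ p ∈ U.image par, pos z p ∉ Z p) →
    (∀ z ∈ X, ∃ (l : List P.State) (r : Bool), l.length < T ∧ P.IsPath (inp g z) q l r ∧
      (∀ c ∈ U, Live P z c (q :: l)) ∧
      ∀ p ∈ U.image par, (Z p ∪ asked P p (q :: l)).card ≤ t) →
    X.card ≤ ∏ p ∈ U.image par, (t - (Z p).card)
  | 0, q, U, Z, X, _, _, _, h => by
    have : X = ∅ := by
      rw [eq_empty_iff_forall_notMem]
      intro z hz
      obtain ⟨l, r, hl, -⟩ := h z hz
      omega
    subst this
    simp
  | T + 1, q, U, Z, X, hU, hX, hZ, h => by
    classical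
    rcases X.eq_empty_or_nonempty with rfl | ⟨z0, hz0⟩
    · simp
    set w0 := P.query q with hw0
    set i := nodeOf w0 with hi
    -- the common continuation for a set of assignments with the same answer
    have step : ∀ (Y : Finset (Node d n → Fin k)) (U' : Finset (Node d n))
        (Z' : Node d n → Finset (Var d k n)) (a0 : Fin k), Y ⊆ X → U' ⊆ U →
        (∀ z ∈ Y, inp g z w0 = a0) →
        (∀ z ∈ Y, ∀ w ∈ Y, ∀ c, c ∉ U' → z c = w c) →
        (∀ z ∈ Y, ∀ c ∈ U', w0 ≠ pos z (par c)) →
        (∀ z ∈ Y, ∀ p ∈ U'.image par, pos z p ∉ Z' p) →
        (∀ p ∈ U'.image par, ∀ l, Z' p ∪ asked P p l ⊆ Z p ∪ asked P p (q :: l)) →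
        Y.card ≤ ∏ p ∈ U'.image par, (t - (Z' p).card) := by
      intro Y U' Z' a0 hYX hU'U hans hagr hno hZ' hbud
      rcases Y.eq_empty_or_nonempty with rfl | ⟨y0, hy0⟩
      · simp
      cases hn : P.next q a0 with
      | inr r0 =>
        have hlnil : ∀ z ∈ Y, ∀ (l : List P.State) (r : Bool), P.IsPath (inp g z) q l r →
            l = [] := by
          intro z hz l r hp
          cases l with
          | nil => rfl
          | cons q' l =>
            have h1 := hp.1
            change P.next q (inp g z w0) = Sum.inl q' at h1
            rw [hans z hz, hn] at h1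
            cases h1
        have hUe : U' = ∅ := by
          rw [eq_empty_iff_forall_notMem]
          intro c hc
          obtain ⟨l, r, -, hp, hl, -⟩ := h y0 (hYX hy0)
          have h1 := hlnil y0 hy0 l r hp
          subst h1
          have h2 := hl c (hU'U hc)
          rcases h2 with h2 | h2
          · exact hno y0 hy0 c hc h2
          · exact h2.2
        subst hUe
        have h3 : Y.card ≤ 1 := by
          rw [card_le_one]
          intro z hz w hw
          funext c
          exact hagr z hz w hw c (notMem_empty c)
        simpa using h3
      | inl q' =>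
        refine count g t T q' U' Z' Y ?_ hagr hZ' ?_
        · intro c hc
          exact ⟨(hU c (hU'U hc)).1, fun hp => (hU c (hU'U hc)).2 (hU'U hp)⟩
        · intro z hz
          obtain ⟨l, r, hlen, hp, hl, hb⟩ := h z (hYX hz)
          cases l with
          | nil =>
            have h1 : P.next q (inp g z w0) = Sum.inr r := hp
            rw [hans z hz, hn] at h1
            cases h1
          | cons q2 l =>
            have h1 : P.next q (inp g z w0) = Sum.inl q2 := hp.1
            rw [hans z hz, hn] at h1
            have h2 : q' = q2 := Sum.inl.inj h1
            subst h2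
            refine ⟨l, r, by simp only [List.length_cons] at hlen; omega, hp.2, ?_, ?_⟩
            · intro c hc
              rcases hl c (hU'U hc) with h3 | h3
              · exact absurd h3 (hno z hz c hc)
              · exact h3.2
            · intro p hpU
              refine (card_le_card (hbud p hpU (q' :: l))).trans (hb p ?_)
              exact image_subset_image hU'U hpU
    by_cases hiP : i ∈ U.image par
    · have hiU : i ∉ U := by
        obtain ⟨c, hc, hci⟩ := mem_image.1 hiP
        rw [← hci]
        exact (hU c hc).2
      by_cases hwZ : w0 ∈ Z i
      · -- already tried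
        refine step X U Z (g w0) (Subset.refl _) (Subset.refl _) ?_ hX ?_ hZ ?_
        · intro z hz
          unfold inp
          rw [if_neg]
          intro h1
          exact hZ z hz i hiP (h1 ▸ hwZ)
        · intro z hz c hc h1
          have h2 : par c = i := by rw [hi, h1, nodeOf_pos]
          rw [h2] at h1
          exact hZ z hz i hiP (h1 ▸ hwZ)
        · intro p _ l
          exact union_subset_union (Subset.refl _) (asked_cons P p q l)
      · -- a new candidate
        set Xy := X.filter (fun z => w0 = pos z i) with hXy
        set Xn := X.filter (fun z => ¬ w0 = pos z i) with hXn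
        have hsum : X.card = Xy.card + Xn.card := by
          rw [hXy, hXn]
          exact (card_filter_add_card_filter_not _).symm
        set U' := U.filter (fun c => par c ≠ i) with hU'
        have himg : U'.image par = (U.image par).erase i := by
          ext p
          simp only [hU', mem_image, mem_filter, mem_erase]
          constructor
          · rintro ⟨c, ⟨hc1, hc2⟩, rfl⟩
            exact ⟨hc2, c, hc1, rfl⟩
          · rintro ⟨h1, c, hc, rfl⟩
            exact ⟨c, ⟨hc, h1⟩, rfl⟩
        have hZcard : (Z i).card + 1 ≤ t := by
          obtain ⟨l, r, -, -, -, hb⟩ := h z0 hz0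
          have h1 := hb i hiP
          have h2 : insert w0 (Z i) ⊆ Z i ∪ asked P i (q :: l) := by
            intro w hw
            rcases mem_insert.1 hw with rfl | hw
            · exact mem_union_right _ (mem_asked_self P q l)
            · exact mem_union_left _ hw
          have h3 := card_le_card h2
          rw [card_insert_of_notMem hwZ] at h3
          omega
        have hy : Xy.card ≤ ∏ p ∈ (U.image par).erase i, (t - (Z p).card) := by
          rw [← himg]
          rcases Xy.eq_empty_or_nonempty with he | ⟨y0, hy0⟩
          · rw [he]; simp
          have hsub : ∀ z ∈ Xy, z ∈ X ∧ w0 = pos z i := fun z hz => mem_filter.1 hz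
          refine step Xy U' Z (y0 i) (filter_subset _ _) (filter_subset _ _) ?_ ?_ ?_ ?_ ?_
          · intro z hz
            rw [(hsub z hz).2, inp_pos]
            exact hX z (hsub z hz).1 y0 (hsub y0 hy0).1 i hiU
          · intro z hz w hw c hc
            by_cases hcU : c ∈ U
            · have hpc : par c = i := by
                by_contra hne
                exact hc (mem_filter.2 ⟨hcU, hne⟩)
              obtain ⟨h1, s, hs⟩ := exists_kid (hU c hcU).1
              have h2 : pos z i = pos w i := (hsub z hz).2.symm.trans (hsub w hw).2
              rw [hpc] at h1 hs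
              rw [hs]
              exact (pos_eq_iff z w i).1 h2 h1 s
            · exact hX z (hsub z hz).1 w (hsub w hw).1 c hcU
          · intro z hz c hc h1
            have h2 : par c = i := by rw [hi, h1, nodeOf_pos]
            exact (mem_filter.1 hc).2 h2
          · intro z hz p hp
            exact hZ z (hsub z hz).1 p (image_subset_image (filter_subset _ _) hp)
          · intro p _ l
            exact union_subset_union (Subset.refl _) (asked_cons P p q l)
        have hn' : Xn.card ≤ (t - ((Z i).card + 1)) *
            ∏ p ∈ (U.image par).erase i, (t - (Z p).card) := by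
          set Z' := Function.update Z i (insert w0 (Z i)) with hZ'
          have h1 : ∏ p ∈ U.image par, (t - (Z' p).card) = (t - ((Z i).card + 1)) *
              ∏ p ∈ (U.image par).erase i, (t - (Z p).card) := by
            rw [← mul_prod_erase _ _ hiP]
            congr 1
            · rw [hZ', Function.update_self, card_insert_of_notMem hwZ]
            · apply prod_congr rfl
              intro p hp
              rw [hZ', Function.update_of_ne (mem_erase.1 hp).1]
          rw [← h1]
          have hsub : ∀ z ∈ Xn, z ∈ X ∧ ¬ w0 = pos z i := fun z hz => mem_filter.1 hz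
          refine step Xn U Z' (g w0) (filter_subset _ _) (Subset.refl _) ?_ ?_ ?_ ?_ ?_
          · intro z hz
            unfold inp
            rw [if_neg (hsub z hz).2]
          · intro z hz w hw
            exact hX z (hsub z hz).1 w (hsub w hw).1
          · intro z hz c hc h2
            have h3 : par c = i := by rw [hi, h2, nodeOf_pos]
            rw [h3] at h2
            exact (hsub z hz).2 h2
          · intro z hz p hp
            by_cases hpi : p = i
            · subst hpi
              rw [hZ', Function.update_self, mem_insert, not_or]
              exact ⟨fun h4 => (hsub z hz).2 h4.symm, hZ z (hsub z hz).1 _ hp⟩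
            · rw [hZ', Function.update_of_ne hpi]
              exact hZ z (hsub z hz).1 p hp
          · intro p hp l
            by_cases hpi : p = i
            · subst hpi
              rw [hZ', Function.update_self]
              intro w hw
              rcases mem_union.1 hw with hw | hw
              · rcases mem_insert.1 hw with rfl | hw
                · exact mem_union_right _ (mem_asked_self P q l)
                · exact mem_union_left _ hw
              · exact mem_union_right _ (asked_cons P _ q l hw)
            · rw [hZ', Function.update_of_ne hpi]
              exact union_subset_union (Subset.refl _) (asked_cons P p q l)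
        rw [hsum, ← mul_prod_erase _ _ hiP]
        calc Xy.card + Xn.card ≤ ∏ p ∈ (U.image par).erase i, (t - (Z p).card) +
              (t - ((Z i).card + 1)) * ∏ p ∈ (U.image par).erase i, (t - (Z p).card) :=
              Nat.add_le_add hy hn'
          _ = (t - (Z i).card) * ∏ p ∈ (U.image par).erase i, (t - (Z p).card) := by
              have : t - (Z i).card = 1 + (t - ((Z i).card + 1)) := by omega
              rw [this]; ring
    · -- a node which is not the parent of a node in `U`
      have hposeq : ∀ z ∈ X, pos z i = pos z0 i := by
        intro z hz
        rw [pos_eq_iff]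
        intro hin s
        refine hX z hz z0 hz0 _ ?_
        intro hkU
        apply hiP
        rw [mem_image]
        exact ⟨_, hkU, par_kid hin s⟩
      have hno : ∀ z ∈ X, ∀ c ∈ U, w0 ≠ pos z (par c) := by
        intro z _ c hc h1
        apply hiP
        rw [hi, h1, nodeOf_pos]
        exact mem_image_of_mem _ hc
      by_cases hthr : w0 = pos z0 i
      · have hiU : i ∉ U := by
          intro hiU
          obtain ⟨l, r, -, -, hl, -⟩ := h z0 hz0
          rcases hl i hiU with h1 | h1
          · exact hno z0 hz0 i hiU h1
          · exact h1.1 hthr
        refine step X U Z (z0 i) (Subset.refl _) (Subset.refl _) ?_ hX hno hZ ?_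
        · intro z hz
          have h1 : w0 = pos z i := by rw [hposeq z hz]; exact hthr
          rw [h1, inp_pos]
          exact hX z hz z0 hz0 i hiU
        · intro p _ l
          exact union_subset_union (Subset.refl _) (asked_cons P p q l)
      · refine step X U Z (g w0) (Subset.refl _) (Subset.refl _) ?_ hX hno hZ ?_
        · intro z hz
          unfold inp
          rw [if_neg]
          rw [← hi, hposeq z hz]
          exact hthr
        · intro p _ l
          exact union_subset_union (Subset.refl _) (asked_cons P p q l)

end

end Pool.Agent.W997.TS
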