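import Mathlib

/-!
# Tree evaluation with fan-in `d`, and deterministic branching programs
-/

set_option autoImplicit false

namespace Pool.Agent.W997.TS

/-- The nodes of the complete `d`-ary tree of height `n`: a node of depth `j ≤ n` is a word of
length `j` over `Fin d`.  The root is the empty word, the children of an inner node `v` (a node of
length `< n`) are the words `s :: v`, `s : Fin d`; the nodes of length `n` are the leaves. -/
abbrev Node (d n : ℕ) : Type := {v : List (Fin d) // v.length ≤ n}

/-- The variables of the tree evaluation problem: for every inner node `v` and every tuple `a` of
values of its children one variable (the entry `a` of the table of `v`), and for every leaf one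
variable. -/
abbrev Var (d k n : ℕ) : Type :=
  ({v : List (Fin d) // v.length < n} × (Fin d → Fin k)) ⊕ {v : List (Fin d) // v.length = n}

/-- An input assigns an element of the alphabet `Fin k` to every variable. -/
abbrev Input (d k n : ℕ) : Type := Var d k n → Fin k

/-- The value of a node: the value of a leaf is the value of its variable, the value of an inner
node is the entry of its table which belongs to the tuple of the values of its children. -/
def value {d k n : ℕ} (x : Input d k n) (v : List (Fin d)) (h : v.length ≤ n) : Fin k :=
  if h' : v.length < n then
    x (Sum.inl (⟨v, h'⟩, fun s => value x (s :: v) (by simpa using h')))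
  else x (Sum.inr ⟨v, by omega⟩)
termination_by n - v.length

/-- The value of the root. -/
def rootValue {d k n : ℕ} (x : Input d k n) : Fin k := value x [] (Nat.zero_le n)

/-- A deterministic `k`-way branching program over the set `V` of variables: a finite set of
states, in the state `q` the variable `query q` is read, and if its value is `c`, then the program
goes to the state `next q c` or stops with an output in `Bool`. -/
structure DBP (V : Type) (k : ℕ) where
  /-- the states -/
  State : Type
  /-- there are finitely many states -/
  [fintype : Fintype State]
  /-- the start state -/
  start : State
  /-- the variable read in a state -/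
  query : State → V
  /-- the next state, or the output -/
  next : State → Fin k → State ⊕ Bool

attribute [instance] DBP.fintype

namespace DBP

variable {V : Type} {k : ℕ}

/-- The number of states. -/
def size (P : DBP V k) : ℕ := Fintype.card P.State

/-- `P.IsPath x q l r`: on the input `x`, started in the state `q`, the program visits after `q`
exactly the states in the list `l`, in this order, and then stops with output `r`. -/
def IsPath (P : DBP V k) (x : V → Fin k) : P.State → List P.State → Bool → Prop
  | q, [], r => P.next q (x (P.query q)) = Sum.inr r
  | q, q' :: l, r => P.next q (x (P.query q)) = Sum.inl q' ∧ P.IsPath x q' l r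

/-- `P.Run x t m r`: on the input `x` the program stops after exactly `t` steps (in every step one
variable is read) with output `r`, and the number of different variables which it has read in the
course of this computation is `m`. -/
def Run [DecidableEq V] (P : DBP V k) (x : V → Fin k) (t m : ℕ) (r : Bool) : Prop :=
  ∃ l : List P.State, P.IsPath x P.start l r ∧ (P.start :: l).length = t ∧
    ((P.start :: l).map P.query).toFinset.card = m

end DBP

/-- The lowest bit of a letter. -/
def bit {k : ℕ} (c : Fin k) : Bool := decide (c.val % 2 = 0)

/-! ### Finiteness -/

noncomputable instance instFintypeNode (d n : ℕ) : Fintype (Node d n) :=
  @Fintype.ofFinite _ (List.finite_length_le (Fin d) n).to_subtype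

noncomputable instance instFintypeInner (d n : ℕ) :
    Fintype {v : List (Fin d) // v.length < n} :=
  @Fintype.ofFinite _ (List.finite_length_lt (Fin d) n).to_subtype

noncomputable instance instFintypeLeaf (d n : ℕ) :
    Fintype {v : List (Fin d) // v.length = n} :=
  @Fintype.ofFinite _ (List.finite_length_eq (Fin d) n).to_subtype

end Pool.Agent.W997.TS
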