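import Pool.Agent.W997.TS.Main

/-!
# The fast program
-/

set_option autoImplicit false

namespace Pool.Agent.W997.TS

open Finset

section Steps

variable {V : Type} {k : ℕ}

/-- `Steps P x q t q'`: from `q` the program reaches `q'` after `t` steps. -/
def Steps (P : DBP V k) (x : V → Fin k) : P.State → ℕ → P.State → Prop
  | q, 0, q' => q = q'
  | q, t + 1, q' => ∃ q1, P.next q (x (P.query q)) = Sum.inl q1 ∧ Steps P x q1 t q'

theorem Steps.append {P : DBP V k} {x : V → Fin k} : ∀ {t : ℕ} {q q' : P.State} {t' : ℕ}
    {q'' : P.State}, Steps P x q t q' → Steps P x q' t' q'' → Steps P x q (t + t') q''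
  | 0, q, q', t', q'', h, h' => by
    have : q = q' := h
    subst this
    rwa [Nat.zero_add]
  | t + 1, q, q', t', q'', h, h' => by
    obtain ⟨q1, h1, h2⟩ := h
    rw [Nat.add_right_comm]
    exact ⟨q1, h1, Steps.append h2 h'⟩

theorem Steps.halts {P : DBP V k} {x : V → Fin k} {r : Bool} : ∀ {t : ℕ} {q q' : P.State},
    Steps P x q t q' → P.next q' (x (P.query q')) = Sum.inr r →
      ∃ l : List P.State, l.length + 1 = t + 1 ∧ P.IsPath x q l r
  | 0, q, q', h, h' => by
    have : q = q' := h
    subst this
    exact ⟨[], rfl, h'⟩
  | t + 1, q, q', h, h' => by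
    obtain ⟨q1, h1, h2⟩ := h
    obtain ⟨l, hl, hp⟩ := Steps.halts h2 h'
    exact ⟨q1 :: l, by rw [List.length_cons]; omega, h1, hp⟩

end Steps

/-- The number of nodes of a tree of height `j`. -/
def cnt (d : ℕ) : ℕ → ℕ
  | 0 => 1
  | j + 1 => 1 + d * cnt d j

theorem cnt_pos (d j : ℕ) : 1 ≤ cnt d j := by
  cases j with
  | zero => exact le_rfl
  | succ j => exact Nat.le_add_right _ _

theorem cnt_le (d : ℕ) (hd : 2 ≤ d) : ∀ j, cnt d j + 1 ≤ d ^ (j + 1)
  | 0 => by simp [cnt]; omega
  | j + 1 => by
    have h := cnt_le d hd j
    have h2 : d * cnt d j + d ≤ d ^ (j + 1 + 1) := by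
      calc d * cnt d j + d = d * (cnt d j + 1) := by ring
        _ ≤ d * d ^ (j + 1) := Nat.mul_le_mul_left _ h
        _ = d ^ (j + 1 + 1) := by ring
    simp only [cnt]
    omega

variable {d k n : ℕ}

/-- The leftmost leaf below a node. -/
def ll (hd : 0 < d) (v : Node d n) : Node d n :=
  ⟨List.replicate (n - v.1.length) (⟨0, hd⟩ : Fin d) ++ v.1, by
    have := v.2
    rw [List.length_append, List.length_replicate]
    omega⟩

theorem ll_leaf (hd : 0 < d) (v : Node d n) (h : v.1.length = n) : ll hd v = v := by
  apply Subtype.ext
  simp [ll, h]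

theorem ll_kid (hd : 0 < d) (v : Node d n) (h : v.1.length < n) :
    ll hd (kid v ⟨0, hd⟩) = ll hd v := by
  apply Subtype.ext
  simp only [ll, kid_val h, List.length_cons]
  obtain ⟨j, hj⟩ : ∃ j, n - v.1.length = j + 1 := ⟨n - v.1.length - 1, by omega⟩
  have h2 : n - (v.1.length + 1) = j := by omega
  rw [hj, h2, List.replicate_succ', List.append_assoc]
  rfl

/-- The fast program: the states are a node and one register with a tuple of values for every
depth. -/
noncomputable def fast (d k n : ℕ) (hd : 0 < d) (hk : 0 < k) : DBP (Var d k n) k where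
  State := Node d n × (Fin (n + 1) → Fin d → Fin k)
  start := (ll hd (rootN d n), fun _ _ => ⟨0, hk⟩)
  query := fun q => if h : q.1.1.length < n then
      Sum.inl (⟨q.1.1, h⟩, q.2 ⟨q.1.1.length, by omega⟩)
    else Sum.inr ⟨q.1.1, le_antisymm q.1.2 (not_lt.1 h)⟩
  next := fun q c =>
    if h : q.1.1 = [] then Sum.inr (bit c)
    else
      let s : Fin d := q.1.1.head h
      let p : Node d n := par q.1
      let i : Fin (n + 1) := ⟨p.1.length, Nat.lt_succ_of_le p.2⟩
      let z : Fin (n + 1) → Fin d → Fin k :=
        Function.update q.2 i (Function.update (q.2 i) s c)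
      if h' : s.val + 1 < d then Sum.inl (ll hd (kid p ⟨s.val + 1, h'⟩), z)
      else Sum.inl (p, z)

theorem fast_size (d k n : ℕ) (hd : 0 < d) (hk : 0 < k) :
    (fast d k n hd hk).size = Fintype.card (Node d n) * (k ^ d) ^ (n + 1) := by
  unfold DBP.size
  change Fintype.card (Node d n × (Fin (n + 1) → Fin d → Fin k)) = _
  rw [Fintype.card_prod, Fintype.card_fun, Fintype.card_fun, Fintype.card_fin, Fintype.card_fin,
    Fintype.card_fin]

/-- The registers contain the values of the children of `v`. -/
def Full (x : Input d k n) (v : Node d n) (z : Fin (n + 1) → Fin d → Fin k) : Prop :=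
  v.1.length < n → z ⟨v.1.length, Nat.lt_succ_of_le v.2⟩ = fun s => valF x (kid v s)

theorem fast_read (hd : 0 < d) (hk : 0 < k) (x : Input d k n) (v : Node d n)
    (z : Fin (n + 1) → Fin d → Fin k) (hz : Full x v z) :
    x ((fast d k n hd hk).query (v, z)) = valF x v := by
  rw [valF_eq]
  congr 1
  unfold pos
  simp only [fast]
  split_ifs with h
  · rw [hz h]
  · rfl

theorem fast_next (hd : 0 < d) (hk : 0 < k) (p : Node d n) (hp : p.1.length < n) (s : Fin d)
    (z : Fin (n + 1) → Fin d → Fin k) (c : Fin k) :
    (fast d k n hd hk).next (kid p s, z) c =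
      if h' : s.val + 1 < d then Sum.inl (ll hd (kid p ⟨s.val + 1, h'⟩),
        Function.update z ⟨p.1.length, Nat.lt_succ_of_le p.2⟩
          (Function.update (z ⟨p.1.length, Nat.lt_succ_of_le p.2⟩) s c))
      else Sum.inl (p, Function.update z ⟨p.1.length, Nat.lt_succ_of_le p.2⟩
          (Function.update (z ⟨p.1.length, Nat.lt_succ_of_le p.2⟩) s c)) := by
  have h1 : ¬ (kid p s).1 = [] := kid_ne_nil hp s
  have h2 : par (kid p s) = p := par_kid hp s
  have h3 : (kid p s).1.head h1 = s := by
    simp only [kid_val hp, List.head_cons]
  simp only [fast]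
  rw [dif_neg h1]
  simp only [h2, h3]

/-- Evaluation of the subtree of `v`. -/
theorem fast_eval (hd : 0 < d) (hk : 0 < k) (x : Input d k n) : ∀ (j : ℕ) (v : Node d n),
    v.1.length + j = n → ∀ z : Fin (n + 1) → Fin d → Fin k,
      ∃ z', Steps (fast d k n hd hk) x (ll hd v, z) (cnt d j - 1) (v, z') ∧ Full x v z' ∧
        ∀ i : Fin (n + 1), i.val < v.1.length → z' i = z i
  | 0, v, hv, z => by
    refine ⟨z, ?_, ?_, fun i _ => rfl⟩
    · rw [ll_leaf hd v (by omega)]
      exact rfl
    · intro h
      omega
  | j + 1, v, hv, z => by
    have hvn : v.1.length < n := by omega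
    set iv : Fin (n + 1) := ⟨v.1.length, Nat.lt_succ_of_le v.2⟩ with hiv
    -- from the child `s` on
    have key : ∀ (r : ℕ) (s : Fin d), s.val + r + 1 = d → ∀ z : Fin (n + 1) → Fin d → Fin k,
        (∀ s' : Fin d, s'.val < s.val → z iv s' = valF x (kid v s')) →
        ∃ z', Steps (fast d k n hd hk) x (ll hd (kid v s), z) ((r + 1) * cnt d j) (v, z') ∧
          Full x v z' ∧ ∀ i : Fin (n + 1), i.val < v.1.length → z' i = z i := by
      intro r
      induction r with
      | zero =>
        intro s hs z hz
        obtain ⟨z1, h1, h2, h3⟩ := fast_eval hd hk x j (kid v s)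
          (by rw [kid_val hvn, List.length_cons]; omega) z
        have h4 := fast_next hd hk v hvn s z1 (valF x (kid v s))
        rw [dif_neg (by omega)] at h4
        refine ⟨Function.update z1 iv (Function.update (z1 iv) s (valF x (kid v s))),
          ?_, ?_, ?_⟩
        · have h5 : Steps (fast d k n hd hk) x (kid v s, z1) 1
              (v, Function.update z1 iv (Function.update (z1 iv) s (valF x (kid v s)))) := by
            refine ⟨_, ?_, rfl⟩
            rw [fast_read hd hk x (kid v s) z1 h2]
            exact h4
          have h6 := h1.append h5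
          have h7 : cnt d j - 1 + 1 = (0 + 1) * cnt d j := by
            have := cnt_pos d j
            omega
          rw [h7] at h6
          exact h6
        · intro _
          change Function.update z1 iv _ iv = _
          rw [Function.update_self]
          funext s'
          by_cases hss : s' = s
          · rw [hss, Function.update_self]
          · rw [Function.update_of_ne hss]
            have h5 : s'.val < s.val := by
              have := s'.2
              have h6 : s'.val ≠ s.val := fun h => hss (Fin.ext h)
              omega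
            rw [h3 iv (by rw [kid_val hvn, List.length_cons]; exact Nat.lt_succ_self _)]
            exact hz s' h5
        · intro i hi
          rw [Function.update_of_ne, h3 i (by rw [kid_val hvn, List.length_cons]; omega)]
          intro h
          rw [h] at hi
          exact absurd hi (lt_irrefl _)
      | succ r ih =>
        intro s hs z hz
        obtain ⟨z1, h1, h2, h3⟩ := fast_eval hd hk x j (kid v s)
          (by rw [kid_val hvn, List.length_cons]; omega) z
        have h4 := fast_next hd hk v hvn s z1 (valF x (kid v s))
        rw [dif_pos (by omega)] at h4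
        set z2 := Function.update z1 iv (Function.update (z1 iv) s (valF x (kid v s))) with hz2
        obtain ⟨z', g1, g2, g3⟩ := ih ⟨s.val + 1, by omega⟩ (by simp only; omega) z2 (by
          intro s' hs'
          simp only at hs'
          rw [hz2, Function.update_self]
          by_cases hss : s' = s
          · rw [hss, Function.update_self]
          · rw [Function.update_of_ne hss]
            have h5 : s'.val < s.val := by
              have h6 : s'.val ≠ s.val := fun h => hss (Fin.ext h)
              omega
            rw [h3 iv (by rw [kid_val hvn, List.length_cons]; exact Nat.lt_succ_self _)]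
            exact hz s' h5)
        refine ⟨z', ?_, g2, ?_⟩
        · have h5 : Steps (fast d k n hd hk) x (kid v s, z1) 1
              (ll hd (kid v ⟨s.val + 1, by omega⟩), z2) := by
            refine ⟨_, ?_, rfl⟩
            rw [fast_read hd hk x (kid v s) z1 h2]
            exact h4
          have h6 := (h1.append h5).append g1
          have h7 : cnt d j - 1 + 1 + (r + 1) * cnt d j = (r + 1 + 1) * cnt d j := by
            have := cnt_pos d j
            have h8 : cnt d j - 1 + 1 = cnt d j := by omega
            rw [h8]
            ring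
          rw [h7] at h6
          exact h6
        · intro i hi
          rw [g3 i hi, hz2, Function.update_of_ne,
            h3 i (by rw [kid_val hvn, List.length_cons]; omega)]
          intro h
          rw [h] at hi
          exact absurd hi (lt_irrefl _)
    obtain ⟨z', h1, h2, h3⟩ := key (d - 1) ⟨0, hd⟩ (by simp only; omega) z (by
      intro s' hs'
      exact absurd hs' (Nat.not_lt_zero _))
    refine ⟨z', ?_, h2, h3⟩
    rw [ll_kid hd v hvn] at h1
    have h4 : (d - 1 + 1) * cnt d j = cnt d (j + 1) - 1 := by
      simp only [cnt]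
      have : d - 1 + 1 = d := by omega
      rw [this]
      omega
    rw [h4] at h1
    exact h1

/-- The fast program is correct, and reads every node exactly once. -/
theorem fast_run (hd : 0 < d) (hk : 0 < k) (x : Input d k n) :
    ∃ m, m ≤ cnt d n ∧ (fast d k n hd hk).Run x (cnt d n) m (bit (rootValue x)) := by
  obtain ⟨z', h1, h2, -⟩ := fast_eval hd hk x n (rootN d n) (Nat.zero_add n)
    (fun _ _ => ⟨0, hk⟩)
  have h3 : (fast d k n hd hk).next (rootN d n, z')
      (x ((fast d k n hd hk).query (rootN d n, z'))) = Sum.inr (bit (rootValue x)) := by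
    rw [fast_read hd hk x (rootN d n) z' h2, rootValue_eq]
    simp only [fast]
    rw [dif_pos]
    rfl
  obtain ⟨l, hl, hp⟩ := h1.halts h3
  have h4 : ((fast d k n hd hk).start :: l).length = cnt d n := by
    rw [List.length_cons, hl]
    have := cnt_pos d n
    omega
  refine ⟨_, ?_, l, hp, h4, rfl⟩
  refine (List.toFinset_card_le _).trans ?_
  rw [List.length_map, h4]

end Pool.Agent.W997.TS
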