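import Pool.Agent.W997.TS.Count

/-!
# The fibre bound and the union bound
-/

set_option autoImplicit false

namespace Pool.Agent.W997.TS

open Finset

variable {d k n : ℕ} (P : DBP (Var d k n) k)

/-- The fibre bound. -/
theorem fiber (g : Input d k n) (t : ℕ) (q : P.State) (U : Finset (Node d n))
    (hU : ∀ c ∈ U, c.1 ≠ [] ∧ par c ∉ U) (A : Finset (Node d n → Fin k))
    (hA : ∀ z ∈ A, ∃ (l : List P.State) (r : Bool), P.IsPath (inp g z) q l r ∧
      (∀ c ∈ U, Live P z c (q :: l)) ∧ ∀ p ∈ U.image par, (asked P p (q :: l)).card ≤ t) :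
    A.card * k ^ U.card ≤ t ^ (U.image par).card * k ^ Fintype.card (Node d n) := by
  classical
  -- bound for the lengths
  choose! l r hp hl hb using hA
  set T := (A.sup fun z => (l z).length) + 1 with hT
  set res : (Node d n → Fin k) → (((Uᶜ : Finset (Node d n)) : Type) → Fin k) :=
    fun z c => z c.1 with hres
  have hfib : ∀ y : ((Uᶜ : Finset (Node d n)) : Type) → Fin k,
      (A.filter (fun z => res z = y)).card ≤ t ^ (U.image par).card := by
    intro y
    have h1 := count P g t T q U (fun _ => ∅) (A.filter (fun z => res z = y)) hU ?_ ?_ ?_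
    · simpa using h1
    · intro z hz w hw c hc
      have h2 := (mem_filter.1 hz).2.trans (mem_filter.1 hw).2.symm
      exact congrFun h2 ⟨c, mem_compl.2 hc⟩
    · intro z _ p _
      exact notMem_empty _
    · intro z hz
      have hzA := (mem_filter.1 hz).1
      refine ⟨l z, r z, ?_, hp z hzA, hl z hzA, ?_⟩
      · have : (l z).length ≤ A.sup fun z => (l z).length :=
          le_sup (f := fun z => (l z).length) hzA
        omega
      · intro p hpU
        rw [empty_union]
        exact hb z hzA p hpU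
  have h1 : A.card = ∑ y : ((Uᶜ : Finset (Node d n)) : Type) → Fin k,
      (A.filter (fun z => res z = y)).card :=
    card_eq_sum_card_fiberwise (fun z _ => mem_coe.2 (mem_univ _))
  have h2 : A.card ≤ k ^ (Uᶜ).card * t ^ (U.image par).card := by
    rw [h1]
    refine (sum_le_sum fun y _ => hfib y).trans ?_
    rw [sum_const, card_univ, Fintype.card_fun, Fintype.card_fin, Fintype.card_coe, smul_eq_mul]
  calc A.card * k ^ U.card ≤ (k ^ (Uᶜ).card * t ^ (U.image par).card) * k ^ U.card :=
        Nat.mul_le_mul_right _ h2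
    _ = t ^ (U.image par).card * (k ^ (Uᶜ).card * k ^ U.card) := by ring
    _ = t ^ (U.image par).card * k ^ Fintype.card (Node d n) := by
        rw [← pow_add, card_compl_add_card]

/-- A structure of live nodes below `a`, a node of height `j`. -/
def Str (u : Node d n) : ℕ → Node d n → (Node d n → Prop) → Prop
  | 0, _, _ => False
  | 1, a, L => ∀ s, L (kid a s)
  | j + 2, a, L => ∃ s, Str u (j + 1) (kid a s) L ∧
      ((∀ s', s' ≠ s → L (kid a s')) ∨
        ∃ (s' : Fin d) (w : Node d n), s' ≠ s ∧ (kid a s').1 <:+ w.1 ∧ w.1.length < n ∧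
          ∀ s'', L (kid w s''))

/-- The inner nodes of the subtree of `u`. -/
noncomputable def inn (u : Node d n) : Finset (Node d n) :=
  univ.filter (fun v => u.1 <:+ v.1 ∧ v.1.length < n)

theorem mem_inn {u v : Node d n} : v ∈ inn u ↔ u.1 <:+ v.1 ∧ v.1.length < n := by
  simp [inn]

/-- The set of all assignments with a given structure of live nodes. -/
noncomputable def ev (g : Input d k n) (t : ℕ) (u : Node d n) (q : P.State)
    (U : Finset (Node d n)) (Φ : (Node d n → Prop) → Prop) : Finset (Node d n → Fin k) :=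
  open Classical in
  univ.filter (fun z => ∃ (l : List P.State) (r : Bool), P.IsPath (inp g z) q l r ∧
    (∀ c ∈ U, Live P z c (q :: l)) ∧ (∀ p ∈ inn u, (asked P p (q :: l)).card ≤ t) ∧
    Φ (fun c => Live P z c (q :: l)))

theorem mem_ev {g : Input d k n} {t : ℕ} {u : Node d n} {q : P.State}
    {U : Finset (Node d n)} {Φ : (Node d n → Prop) → Prop} {z : Node d n → Fin k} :
    z ∈ ev P g t u q U Φ ↔ ∃ (l : List P.State) (r : Bool), P.IsPath (inp g z) q l r ∧
      (∀ c ∈ U, Live P z c (q :: l)) ∧ (∀ p ∈ inn u, (asked P p (q :: l)).card ≤ t) ∧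
      Φ (fun c => Live P z c (q :: l)) := by
  classical
  simp only [ev, mem_filter, mem_univ, true_and]

/-- The set of the children of a node. -/
noncomputable def kids (a : Node d n) : Finset (Node d n) := univ.image (kid a)

theorem mem_kids {a c : Node d n} : c ∈ kids a ↔ ∃ s, kid a s = c := by simp [kids]

theorem card_kids {a : Node d n} (ha : a.1.length < n) : (kids a).card = d := by
  rw [kids, card_image_of_injective _ (kid_inj ha), card_univ, Fintype.card_fin]

theorem par_mem_kids {a c : Node d n} (ha : a.1.length < n) (hc : c ∈ kids a) : par c = a := by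
  obtain ⟨s, rfl⟩ := mem_kids.1 hc
  exact par_kid ha s

theorem suffix_kid {a : Node d n} (ha : a.1.length < n) (s : Fin d) : a.1 <:+ (kid a s).1 := by
  rw [kid_val ha]
  exact List.suffix_cons _ _

theorem kid_ne_nil {a : Node d n} (ha : a.1.length < n) (s : Fin d) : (kid a s).1 ≠ [] := by
  rw [kid_val ha]
  exact List.cons_ne_nil _ _

/-- Validity of a set of live nodes outside the subtree of `a`. -/
structure Valid (u a : Node d n) (U : Finset (Node d n)) : Prop where
  ne : ∀ c ∈ U, c.1 ≠ [] ∧ par c ∉ U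
  sub : ∀ c ∈ U, par c ∈ inn u
  out : ∀ c ∈ U, ¬ a.1 <:+ c.1
  out' : ∀ c ∈ U, ¬ a.1 <:+ (par c).1

theorem Valid.add_ne {u a v : Node d n} {U : Finset (Node d n)} (h : Valid u a U)
    (C : Finset (Node d n)) (hav : a.1 <:+ v.1)
    (hC : ∀ c ∈ C, par c = v ∧ c.1 ≠ []) : ∀ c ∈ U ∪ C, c.1 ≠ [] ∧ par c ∉ U ∪ C := by
  have hsuf : ∀ c ∈ C, v.1 <:+ c.1 := by
    intro c hc
    rw [← (hC c hc).1, par_val]
    exact List.tail_suffix _
  intro c hc
  rcases mem_union.1 hc with hc | hc
  · refine ⟨(h.ne c hc).1, ?_⟩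
    rw [mem_union, not_or]
    refine ⟨(h.ne c hc).2, fun h1 => ?_⟩
    exact h.out' c hc (hav.trans (hsuf _ h1))
  · refine ⟨(hC c hc).2, ?_⟩
    rw [(hC c hc).1, mem_union, not_or]
    refine ⟨fun h1 => h.out v h1 hav, fun h1 => ?_⟩
    obtain ⟨h2, h3⟩ := hC v h1
    have h4 := congrArg (fun x : Node d n => x.1.length) h2
    simp only [par_val, List.length_tail] at h4
    have h5 : 0 < v.1.length := List.length_pos_of_ne_nil h3
    omega

theorem Valid.add_inn {u a v : Node d n} {U : Finset (Node d n)} (h : Valid u a U)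
    (C : Finset (Node d n)) (hv : v ∈ inn u)
    (hC : ∀ c ∈ C, par c = v ∧ c.1 ≠ []) : ∀ c ∈ U ∪ C, par c ∈ inn u := by
  intro c hc
  rcases mem_union.1 hc with hc | hc
  · exact h.sub c hc
  · rw [(hC c hc).1]
    exact hv

/-- Adding children of a node of the subtree of `a`. -/
theorem Valid.add {u a b v : Node d n} {U : Finset (Node d n)} (h : Valid u a U)
    (C : Finset (Node d n)) (hv : v ∈ inn u) (hav : a.1 <:+ v.1)
    (hC : ∀ c ∈ C, par c = v ∧ c.1 ≠ []) (hab : a.1 <:+ b.1)
    (hCb : ∀ c ∈ C, ¬ b.1 <:+ c.1) (hbv : ¬ b.1 <:+ v.1) :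
    Valid u b (U ∪ C) := by
  refine ⟨h.add_ne C hav hC, h.add_inn C hv hC, ?_, ?_⟩
  · intro c hc
    rcases mem_union.1 hc with hc | hc
    · exact fun h1 => h.out c hc (hab.trans h1)
    · exact hCb c hc
  · intro c hc
    rcases mem_union.1 hc with hc | hc
    · exact fun h1 => h.out' c hc (hab.trans h1)
    · rw [(hC c hc).1]
      exact hbv

/-- Bookkeeping of the cardinalities. -/
theorem Valid.card {u a v : Node d n} {U : Finset (Node d n)} (h : Valid u a U)
    (C : Finset (Node d n)) (hav : a.1 <:+ v.1)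
    (hC : ∀ c ∈ C, par c = v ∧ c.1 ≠ []) :
    (U ∪ C).card = U.card + C.card ∧
      ((U ∪ C).image par).card ≤ (U.image par).card + 1 := by
  classical
  constructor
  · apply card_union_of_disjoint
    rw [disjoint_left]
    intro c hc hc'
    apply h.out c hc
    refine hav.trans ?_
    rw [← (hC c hc').1, par_val]
    exact List.tail_suffix _
  · rw [image_union]
    refine (card_union_le _ _).trans ?_
    apply Nat.add_le_add_left
    refine (card_le_card (t := {v}) ?_).trans (by simp)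
    intro p hp
    obtain ⟨c, hc, rfl⟩ := mem_image.1 hp
    rw [mem_singleton]
    exact (hC c hc).1

theorem suffix_eq {l₁ l₂ l : List (Fin d)} (h1 : l₁ <:+ l) (h2 : l₂ <:+ l)
    (h : l₁.length = l₂.length) : l₁ = l₂ :=
  (List.suffix_of_suffix_length_le h1 h2 h.le).eq_of_length h

/-- One application of the fibre bound, over the reals. -/
theorem ev_base (g : Input d k n) (t : ℕ) (u : Node d n) (q : P.State) (hk : 1 ≤ k) (ht : 1 ≤ t)
    {a v : Node d n} {U : Finset (Node d n)} (h : Valid u a U) (hv : v ∈ inn u)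
    (hav : a.1 <:+ v.1) (e : ℕ) (he : (U.image par).card ≤ e)
    (A : Finset (Node d n → Fin k))
    (hA : ∀ z ∈ A, ∃ (l : List P.State) (r : Bool), P.IsPath (inp g z) q l r ∧
      (∀ c ∈ U, Live P z c (q :: l)) ∧ (∀ p ∈ inn u, (asked P p (q :: l)).card ≤ t) ∧
      ∀ s, Live P z (kid v s) (q :: l)) :
    (A.card : ℝ) ≤ ((t : ℝ) ^ e / (k : ℝ) ^ U.card) * ((t : ℝ) / (k : ℝ) ^ d) *
      (k : ℝ) ^ Fintype.card (Node d n) := by
  classical
  have hvn := (mem_inn.1 hv).2
  have hC : ∀ c ∈ kids v, par c = v ∧ c.1 ≠ [] := by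
    intro c hc
    refine ⟨par_mem_kids hvn hc, ?_⟩
    obtain ⟨s, rfl⟩ := mem_kids.1 hc
    exact kid_ne_nil hvn s
  obtain ⟨h1, h2⟩ := h.card (kids v) hav hC
  have h3 := fiber P g t q (U ∪ kids v) (h.add_ne _ hav hC) A (by
    intro z hz
    obtain ⟨l, r, hp, hl, hb, hk'⟩ := hA z hz
    refine ⟨l, r, hp, ?_, ?_⟩
    · intro c hc
      rcases mem_union.1 hc with hc | hc
      · exact hl c hc
      · obtain ⟨s, rfl⟩ := mem_kids.1 hc
        exact hk' s
    · intro p hpU
      obtain ⟨c, hc, rfl⟩ := mem_image.1 hpU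
      exact hb _ (h.add_inn _ hv hC c hc))
  rw [h1, card_kids hvn] at h3
  have h4 : t ^ ((U ∪ kids v).image par).card ≤ t ^ (e + 1) :=
    Nat.pow_le_pow_right ht (h2.trans (by omega))
  have h5 : A.card * k ^ (U.card + d) ≤ t ^ (e + 1) * k ^ Fintype.card (Node d n) :=
    h3.trans (Nat.mul_le_mul_right _ h4)
  have h6 : (A.card : ℝ) * (k : ℝ) ^ (U.card + d) ≤
      (t : ℝ) ^ (e + 1) * (k : ℝ) ^ Fintype.card (Node d n) := by exact_mod_cast h5
  have hk0 : (0 : ℝ) < k := by exact_mod_cast hk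
  have h7 : (A.card : ℝ) ≤ (t : ℝ) ^ (e + 1) * (k : ℝ) ^ Fintype.card (Node d n) /
      (k : ℝ) ^ (U.card + d) := by
    rw [le_div_iff₀ (by positivity)]
    exact h6
  refine h7.trans (le_of_eq ?_)
  rw [pow_add (k : ℝ) U.card d, pow_succ (t : ℝ) e]
  field_simp

/-- **The union bound.** -/
theorem ev_bound (g : Input d k n) (t : ℕ) (u : Node d n) (q : P.State) (hk : 1 ≤ k)
    (ht : 1 ≤ t) (hd : 1 ≤ d) : ∀ (j : ℕ) (a : Node d n) (U : Finset (Node d n)) (e : ℕ),
      a.1.length + (j + 1) = n → u.1 <:+ a.1 → Valid u a U → (U.image par).card ≤ e →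
      ((ev P g t u q U (Str u (j + 1) a)).card : ℝ) ≤
        ((t : ℝ) ^ e / (k : ℝ) ^ U.card) *
          ((d : ℝ) * ((t : ℝ) / (k : ℝ) ^ (d - 1) + (inn u).card * ((t : ℝ) / (k : ℝ) ^ d))) ^ j *
          ((t : ℝ) / (k : ℝ) ^ d) * (k : ℝ) ^ Fintype.card (Node d n)
  | 0, a, U, e, hj, hua, hV, he => by
    have ha : a.1.length < n := by omega
    have h1 := ev_base P g t u q hk ht hV (mem_inn.2 ⟨hua, ha⟩) (List.suffix_refl _) e he
      (ev P g t u q U (Str u 1 a)) (by
        intro z hz
        obtain ⟨l, r, h1, h2, h3, h4⟩ := (mem_ev P).1 hz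
        exact ⟨l, r, h1, h2, h3, h4⟩)
    simpa using h1
  | j + 1, a, U, e, hj, hua, hV, he => by
    classical
    have ha : a.1.length < n := by omega
    set W : Fin d → Finset (Node d n) := fun s =>
      (inn u).filter (fun w => ∃ s', s' ≠ s ∧ (kid a s').1 <:+ w.1) with hW
    set S1 : Fin d → Finset (Node d n → Fin k) := fun s =>
      ev P g t u q (U ∪ (kids a).erase (kid a s)) (Str u (j + 1) (kid a s)) with hS1
    set S2 : Fin d → Node d n → Finset (Node d n → Fin k) := fun s w =>
      ev P g t u q (U ∪ kids w) (Str u (j + 1) (kid a s)) with hS2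
    have hsub : ev P g t u q U (Str u (j + 1 + 1) a) ⊆
        univ.biUnion (fun s => S1 s ∪ (W s).biUnion (S2 s)) := by
      intro z hz
      obtain ⟨l, r, h1, h2, h3, s, h4, h5⟩ := (mem_ev P).1 hz
      rw [mem_biUnion]
      refine ⟨s, mem_univ s, ?_⟩
      rcases h5 with h5 | ⟨s', w, hs', hw, hwn, h5⟩
      · refine mem_union_left _ ((mem_ev P).2 ⟨l, r, h1, ?_, h3, h4⟩)
        intro c hc
        rcases mem_union.1 hc with hc | hc
        · exact h2 c hc
        · obtain ⟨hc1, hc2⟩ := mem_erase.1 hc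
          obtain ⟨s', rfl⟩ := mem_kids.1 hc2
          exact h5 s' (fun h => hc1 (h ▸ rfl))
      · refine mem_union_right _ (mem_biUnion.2 ⟨w, mem_filter.2 ⟨mem_inn.2 ⟨?_, hwn⟩,
          s', hs', hw⟩, (mem_ev P).2 ⟨l, r, h1, ?_, h3, h4⟩⟩)
        · exact (hua.trans (suffix_kid ha s')).trans hw
        · intro c hc
          rcases mem_union.1 hc with hc | hc
          · exact h2 c hc
          · obtain ⟨s'', rfl⟩ := mem_kids.1 hc
            exact h5 s''
    have hkl : ∀ s, (kid a s).1.length + (j + 1) = n := by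
      intro s
      rw [kid_val ha, List.length_cons]
      omega
    have huk : ∀ s, u.1 <:+ (kid a s).1 := fun s => hua.trans (suffix_kid ha s)
    set R : ℝ := (d : ℝ) * ((t : ℝ) / (k : ℝ) ^ (d - 1) +
      (inn u).card * ((t : ℝ) / (k : ℝ) ^ d)) with hR
    set K : ℝ := (k : ℝ) ^ Fintype.card (Node d n) with hK
    have hk0 : (0 : ℝ) < k := by exact_mod_cast hk
    have hR0 : 0 ≤ R := by rw [hR]; positivity
    have hnotkid : ∀ s, ¬ (kid a s).1 <:+ a.1 := by
      intro s h
      have := h.length_le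
      rw [kid_val ha, List.length_cons] at this
      omega
    have b1 : ∀ s, ((S1 s).card : ℝ) ≤ ((t : ℝ) ^ (e + 1) / (k : ℝ) ^ (U.card + (d - 1))) *
        R ^ j * ((t : ℝ) / (k : ℝ) ^ d) * K := by
      intro s
      have hC : ∀ c ∈ (kids a).erase (kid a s), par c = a ∧ c.1 ≠ [] := by
        intro c hc
        have hc2 := (mem_erase.1 hc).2
        refine ⟨par_mem_kids ha hc2, ?_⟩
        obtain ⟨s, rfl⟩ := mem_kids.1 hc2
        exact kid_ne_nil ha s
      have hVs : Valid u (kid a s) (U ∪ (kids a).erase (kid a s)) := by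
        refine hV.add _ (mem_inn.2 ⟨hua, ha⟩) (List.suffix_refl _) hC (suffix_kid ha s) ?_
          (hnotkid s)
        intro c hc h
        obtain ⟨hc1, hc2⟩ := mem_erase.1 hc
        obtain ⟨s', rfl⟩ := mem_kids.1 hc2
        apply hc1
        apply Subtype.ext
        have h1 : (kid a s).1.length = (kid a s').1.length := by
          rw [kid_val ha, kid_val ha]; rfl
        exact (h.eq_of_length h1).symm
      obtain ⟨h1, h2⟩ := hV.card _ (List.suffix_refl _) hC
      have h3 := ev_bound g t u q hk ht hd j (kid a s) _ (e + 1) (hkl s) (huk s) hVs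
        (h2.trans (by omega))
      rw [h1, card_erase_of_mem (mem_kids.2 ⟨s, rfl⟩), card_kids ha] at h3
      exact h3
    have b2 : ∀ s, ∀ w ∈ W s, ((S2 s w).card : ℝ) ≤
        ((t : ℝ) ^ (e + 1) / (k : ℝ) ^ (U.card + d)) * R ^ j * ((t : ℝ) / (k : ℝ) ^ d) * K := by
      intro s w hw
      obtain ⟨hwi, s', hs', hsw⟩ := mem_filter.1 hw
      have hwn := (mem_inn.1 hwi).2
      have haw : a.1 <:+ w.1 := (suffix_kid ha s').trans hsw
      have hC : ∀ c ∈ kids w, par c = w ∧ c.1 ≠ [] := by
        intro c hc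
        refine ⟨par_mem_kids hwn hc, ?_⟩
        obtain ⟨s, rfl⟩ := mem_kids.1 hc
        exact kid_ne_nil hwn s
      have hbv : ¬ (kid a s).1 <:+ w.1 := by
        intro h
        have h1 : (kid a s).1.length = (kid a s').1.length := by
          rw [kid_val ha, kid_val ha]; rfl
        have h2 := suffix_eq h hsw h1
        exact hs' (kid_inj ha (Subtype.ext h2)).symm
      have hVs : Valid u (kid a s) (U ∪ kids w) := by
        refine hV.add _ hwi haw hC (suffix_kid ha s) ?_ hbv
        intro c hc h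
        obtain ⟨s'', rfl⟩ := mem_kids.1 hc
        rw [kid_val hwn, List.suffix_cons_iff] at h
        rcases h with h | h
        · rw [kid_val ha] at h
          have h1 := (List.cons.inj h).2
          have h2 := hsw.length_le
          rw [kid_val ha, h1, List.length_cons] at h2
          omega
        · exact hbv h
      obtain ⟨h1, h2⟩ := hV.card _ haw hC
      have h3 := ev_bound g t u q hk ht hd j (kid a s) _ (e + 1) (hkl s) (huk s) hVs
        (h2.trans (by omega))
      rw [h1, card_kids hwn] at h3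
      exact h3
    have h1 : (ev P g t u q U (Str u (j + 1 + 1) a)).card ≤
        ∑ s : Fin d, ((S1 s).card + ∑ w ∈ W s, (S2 s w).card) := by
      refine (card_le_card hsub).trans (card_biUnion_le.trans (sum_le_sum fun s _ => ?_))
      exact (card_union_le _ _).trans (Nat.add_le_add_left card_biUnion_le _)
    have h2 : ((ev P g t u q U (Str u (j + 1 + 1) a)).card : ℝ) ≤
        ∑ s : Fin d, (((S1 s).card : ℝ) + ∑ w ∈ W s, ((S2 s w).card : ℝ)) := by
      exact_mod_cast h1
    refine h2.trans ?_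
    have h3 : ∀ s, (((S1 s).card : ℝ) + ∑ w ∈ W s, ((S2 s w).card : ℝ)) ≤
        ((t : ℝ) ^ (e + 1) / (k : ℝ) ^ (U.card + (d - 1))) * R ^ j * ((t : ℝ) / (k : ℝ) ^ d) * K +
        (inn u).card * (((t : ℝ) ^ (e + 1) / (k : ℝ) ^ (U.card + d)) * R ^ j *
          ((t : ℝ) / (k : ℝ) ^ d) * K) := by
      intro s
      refine add_le_add (b1 s) ?_
      refine (sum_le_sum (b2 s)).trans ?_
      rw [sum_const, nsmul_eq_mul]
      apply mul_le_mul_of_nonneg_right
      · exact_mod_cast card_le_card (filter_subset _ _)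
      · positivity
    refine (sum_le_sum fun s _ => h3 s).trans ?_
    rw [sum_const, card_univ, Fintype.card_fin, nsmul_eq_mul]
    refine le_of_eq ?_
    have e1 : (d : ℝ) * (((t : ℝ) ^ (e + 1) / (k : ℝ) ^ (U.card + (d - 1))) * R ^ j *
        ((t : ℝ) / (k : ℝ) ^ d) * K + (inn u).card * (((t : ℝ) ^ (e + 1) /
        (k : ℝ) ^ (U.card + d)) * R ^ j * ((t : ℝ) / (k : ℝ) ^ d) * K)) =
        ((t : ℝ) ^ e / (k : ℝ) ^ U.card) * (R ^ j * ((d : ℝ) * ((t : ℝ) / (k : ℝ) ^ (d - 1) +
        (inn u).card * ((t : ℝ) / (k : ℝ) ^ d)))) * ((t : ℝ) / (k : ℝ) ^ d) * K := by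
      rw [pow_add (k : ℝ) U.card (d - 1), pow_add (k : ℝ) U.card d, pow_succ (t : ℝ) e]
      have h4 : (k : ℝ) ^ U.card ≠ 0 := by positivity
      have h5 : (k : ℝ) ^ d ≠ 0 := by positivity
      have h6 : (k : ℝ) ^ (d - 1) ≠ 0 := by positivity
      field_simp
    rw [e1, ← hR, ← pow_succ]

end Pool.Agent.W997.TS
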