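import Pool.Agent.W997.TS.Trans

/-!
# Uniformly random inputs
-/

set_option autoImplicit false

namespace Pool.Agent.W997.TS

open Finset

variable {d k n : ℕ}

/-- The values of all nodes. -/
def valF (x : Input d k n) : Node d n → Fin k := fun v => value x v.1 v.2

theorem value_congr (x : Input d k n) {v w : List (Fin d)} (h : v = w) (hv : v.length ≤ n)
    (hw : w.length ≤ n) : value x v hv = value x w hw := by
  subst h; rfl

/-- The value of a node is the value of its thrifty variable. -/
theorem valF_eq (x : Input d k n) (v : Node d n) : valF x v = x (pos (valF x) v) := by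
  unfold pos
  split_ifs with h
  · change value x v.1 v.2 = _
    rw [value, dif_pos h]
    congr 3
    funext s
    exact value_congr x (kid_val h s).symm _ _
  · change value x v.1 v.2 = _
    rw [value, dif_neg h]

theorem valF_inp (g : Input d k n) (z : Node d n → Fin k) : ∀ (j : ℕ) (v : Node d n),
    v.1.length + j = n → valF (inp g z) v = z v
  | 0, v, hv => by
    rw [valF_eq]
    have : pos (valF (inp g z)) v = pos z v := by
      rw [pos_eq_iff]
      intro h
      omega
    rw [this, inp_pos]
  | j + 1, v, hv => by
    rw [valF_eq]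
    have : pos (valF (inp g z)) v = pos z v := by
      rw [pos_eq_iff]
      intro h s
      exact valF_inp g z j (kid v s) (by rw [kid_val h, List.length_cons]; omega)
    rw [this, inp_pos]

theorem valF_inp' (g : Input d k n) (z : Node d n → Fin k) : valF (inp g z) = z := by
  funext v
  obtain ⟨j, hj⟩ := Nat.exists_eq_add_of_le v.2
  exact valF_inp g z j v hj.symm

/-- The parametrisation of the inputs. -/
def split : Input d k n × (Node d n → Fin k) ≃ Input d k n × (Node d n → Fin k) where
  toFun p := (inp p.1 p.2, fun v => p.1 (pos p.2 v))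
  invFun p := (fun w => if w = pos (valF p.1) (nodeOf w) then p.2 (nodeOf w) else p.1 w,
    valF p.1)
  left_inv := by
    rintro ⟨g, z⟩
    refine Prod.ext ?_ ?_
    · funext w
      simp only [valF_inp']
      split_ifs with h
      · rw [← h]
      · unfold inp
        rw [if_neg h]
    · exact valF_inp' g z
  right_inv := by
    rintro ⟨x, e⟩
    refine Prod.ext ?_ ?_
    · funext w
      simp only [inp]
      split_ifs with h
      · rw [valF_eq, ← h]
      · rfl
    · funext v
      simp only [nodeOf_pos, if_true]

/-- Transfer of an estimate for all backgrounds to uniformly random inputs. -/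
theorem transfer (A : Finset (Input d k n)) (β : ℝ)
    (h : ∀ (g : Input d k n) (B : Finset (Node d n → Fin k)), (∀ z ∈ B, inp g z ∈ A) →
      (B.card : ℝ) ≤ β * (k : ℝ) ^ Fintype.card (Node d n)) (hk : 1 ≤ k) :
    (A.card : ℝ) ≤ β * Fintype.card (Input d k n) := by
  classical
  set B : Input d k n → Finset (Node d n → Fin k) := fun g =>
    univ.filter (fun z => inp g z ∈ A) with hB
  have h1 : (A ×ˢ (univ : Finset (Node d n → Fin k))).card = ∑ g : Input d k n, (B g).card := by
    have h2 : (A ×ˢ (univ : Finset (Node d n → Fin k))).card =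
        ((univ : Finset (Input d k n × (Node d n → Fin k))).filter
          (fun p => inp p.1 p.2 ∈ A)).card := by
      symm
      apply card_bij (fun p _ => split p)
      · intro p hp
        rw [mem_product]
        exact ⟨(mem_filter.1 hp).2, mem_univ _⟩
      · intro p _ p' _ hpp
        exact split.injective hpp
      · intro p hp
        refine ⟨split.symm p, ?_, split.apply_symm_apply p⟩
        rw [mem_filter]
        refine ⟨mem_univ _, ?_⟩
        have h3 : (split (split.symm p)).1 = p.1 := by rw [split.apply_symm_apply]
        have h4 : inp (split.symm p).1 (split.symm p).2 = p.1 := h3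
        rw [h4]
        exact (mem_product.1 hp).1
    rw [h2, card_filter, ← univ_product_univ, sum_product]
    apply sum_congr rfl
    intro g _
    rw [hB, card_filter]
  rw [card_product, card_univ, Fintype.card_fun, Fintype.card_fin] at h1
  have h2 : ((A.card * k ^ Fintype.card (Node d n) : ℕ) : ℝ) ≤
      Fintype.card (Input d k n) * (β * (k : ℝ) ^ Fintype.card (Node d n)) := by
    rw [h1]
    push_cast
    refine (sum_le_sum fun g _ => h g (B g) (fun z hz => (mem_filter.1 hz).2)).trans ?_
    rw [sum_const, nsmul_eq_mul, card_univ]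
  have hk0 : (0 : ℝ) < (k : ℝ) ^ Fintype.card (Node d n) := by
    have : (0 : ℝ) < k := by exact_mod_cast hk
    positivity
  push_cast at h2
  have h3 : (A.card : ℝ) * (k : ℝ) ^ Fintype.card (Node d n) ≤
      (β * Fintype.card (Input d k n)) * (k : ℝ) ^ Fintype.card (Node d n) := by
    refine h2.trans (le_of_eq ?_)
    ring
  exact le_of_mul_le_mul_right h3 hk0

variable (P : DBP (Var d k n) k)

/-- **The bound for random inputs**: few inputs are such that at every inner node of the subtree
of `u` at most `t` variables are read, and the thrifty variable of `u` is read. -/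
theorem random_bound (t : ℕ) (u : Node d n) (m : ℕ) (hk : 1 ≤ k) (ht : 1 ≤ t) (hd : 1 ≤ d)
    (hu : u.1.length + (m + 1) = n) (L : Input d k n → List P.State) (R : Input d k n → Bool)
    (hLR : ∀ x, P.IsPath x P.start (L x) (R x)) (A : Finset (Input d k n))
    (hA : ∀ x ∈ A, (∀ p ∈ inn u, (asked P p (P.start :: L x)).card ≤ t) ∧
      ∃ q ∈ P.start :: L x, P.query q = pos (valF x) u) :
    (A.card : ℝ) ≤ ((inn u).card * ((t : ℝ) / (k : ℝ) ^ d) + P.size *
      (((d : ℝ) * ((t : ℝ) / (k : ℝ) ^ (d - 1) + (inn u).card * ((t : ℝ) / (k : ℝ) ^ d))) ^ m *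
        ((t : ℝ) / (k : ℝ) ^ d))) * Fintype.card (Input d k n) := by
  refine transfer A _ ?_ hk
  intro g B hB
  refine fixed_background P g t u m hk ht hd hu B ?_
  intro z hz
  obtain ⟨h1, h2⟩ := hA _ (hB z hz)
  rw [valF_inp'] at h2
  exact ⟨L (inp g z), R (inp g z), hLR _, h1, h2⟩

end Pool.Agent.W997.TS
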