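import Pool.Agent.W997.TS.Irrel

/-!
# The time-space tradeoff
-/

set_option autoImplicit false

namespace Pool.Agent.W997.TS

open Finset

variable {d k n : ℕ}

theorem card_inn (hd : 2 ≤ d) : ∀ (j : ℕ) (v : Node d n), v.1.length + j = n →
    (inn v).card + 1 ≤ d ^ j
  | 0, v, hv => by
    have : inn v = ∅ := by
      rw [eq_empty_iff_forall_notMem]
      intro w hw
      obtain ⟨h1, h2⟩ := mem_inn.1 hw
      have := h1.length_le
      omega
    simp [this]
  | j + 1, v, hv => by
    classical
    have hvn : v.1.length < n := by omega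
    have hsub : inn v ⊆ insert v (univ.biUnion fun s => inn (kid v s)) := by
      intro w hw
      obtain ⟨h1, h2⟩ := mem_inn.1 hw
      rw [mem_insert]
      by_cases h : w = v
      · exact Or.inl h
      · right
        have hlt : v.1.length < w.1.length := by
          rcases h1.length_le.lt_or_eq with h3 | h3
          · exact h3
          · exact absurd (Subtype.ext (h1.eq_of_length h3)).symm h
        obtain ⟨-, s, hs⟩ := exists_next h1 hlt
        exact mem_biUnion.2 ⟨s, mem_univ _, mem_inn.2 ⟨hs, h2⟩⟩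
    have h1 : (inn v).card ≤ 1 + ∑ s : Fin d, (inn (kid v s)).card := by
      refine (card_le_card hsub).trans ((card_insert_le _ _).trans ?_)
      rw [add_comm]
      exact Nat.add_le_add_left card_biUnion_le _
    have h2 : ∑ s : Fin d, (inn (kid v s)).card ≤ d * (d ^ j - 1) := by
      refine (sum_le_sum (f := fun s => (inn (kid v s)).card) (g := fun _ => d ^ j - 1)
        fun s _ => ?_).trans ?_
      · have := card_inn hd j (kid v s) (by rw [kid_val hvn, List.length_cons]; omega)
        omega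
      · rw [sum_const, card_univ, Fintype.card_fin, smul_eq_mul]
    have h3 : 1 ≤ d ^ j := Nat.one_le_pow _ _ (by omega)
    have h4 : d * (d ^ j - 1) + d = d ^ (j + 1) := by
      rw [pow_succ, mul_comm (d ^ j) d, ← Nat.mul_succ]
      congr 1
      omega
    omega

/-- The nodes of a given depth. -/
noncomputable def dep (d n j : ℕ) : Finset (Node d n) := univ.filter (fun u => u.1.length = j)

theorem mem_dep {j : ℕ} {u : Node d n} : u ∈ dep d n j ↔ u.1.length = j := by simp [dep]

theorem card_dep {j : ℕ} (hj : j ≤ n) : d ^ j ≤ (dep d n j).card := by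
  classical
  have h1 : Fintype.card (Fin j → Fin d) = d ^ j := by simp
  rw [← h1, ← card_univ]
  refine card_le_card_of_injOn (fun f => (⟨List.ofFn f, by simpa using hj⟩ : Node d n)) ?_ ?_
  · intro f _
    rw [mem_coe, mem_dep]
    simp
  · intro f _ f' _ h
    have h2 := congrArg Subtype.val h
    simpa using h2

/-- The variables of inner nodes of the subtree of `u` which are read. -/
noncomputable def askedT (P : DBP (Var d k n) k) (u : Node d n) (l : List P.State) :
    Finset (Var d k n) :=
  open Classical in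
  (l.map P.query).toFinset.filter (fun w => u.1 <:+ (nodeOf w).1 ∧ (nodeOf w).1.length < n)

theorem sum_askedT (P : DBP (Var d k n) k) (j : ℕ) (l : List P.State) :
    ∑ u ∈ dep d n j, (askedT P u l).card ≤ (l.map P.query).toFinset.card := by
  classical
  rw [← card_biUnion]
  · apply card_le_card
    intro w hw
    obtain ⟨u, -, hu⟩ := mem_biUnion.1 hw
    exact (mem_filter.1 hu).1
  · intro u hu u' hu' hne
    change Disjoint _ _
    rw [disjoint_left]
    intro w hw hw'
    apply hne
    apply Subtype.ext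
    refine suffix_eq (mem_filter.1 hw).2.1 (mem_filter.1 hw').2.1 ?_
    rw [mem_dep.1 hu, mem_dep.1 hu']

/-- The numerical estimate of the failure probability. -/
theorem beta_le (d k h s t D S : ℕ) (γ : ℝ) (hγ0 : 0 < γ) (hγ1 : γ ≤ 1 / 2) (hk : 1 ≤ k)
    (hd : 2 ≤ d) (hs : 1 ≤ s) (hD : D ≤ k)
    (hS : S ≤ k * s ^ (h + 1)) (ht : (t : ℝ) * (4 * d * s) ≤ γ * (k : ℝ) ^ (d - 1)) :
    (D : ℝ) * ((t : ℝ) / (k : ℝ) ^ d) + S *
      (((d : ℝ) * ((t : ℝ) / (k : ℝ) ^ (d - 1) + D * ((t : ℝ) / (k : ℝ) ^ d))) ^ h *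
        ((t : ℝ) / (k : ℝ) ^ d)) ≤ γ / 2 := by
  have hk0 : (0 : ℝ) < k := by exact_mod_cast hk
  have hd0 : (2 : ℝ) ≤ d := by exact_mod_cast hd
  have hs0 : (1 : ℝ) ≤ s := by exact_mod_cast hs
  have hpow : (k : ℝ) ^ d = (k : ℝ) ^ (d - 1) * k := by
    rw [← pow_succ]
    congr 1
    omega
  set τ : ℝ := (t : ℝ) / (k : ℝ) ^ (d - 1) with hτ
  have hτ0 : 0 ≤ τ := by rw [hτ]; positivity
  have hτk : (t : ℝ) / (k : ℝ) ^ d = τ / k := by
    rw [hτ, hpow, div_div]
  have hτle : τ * (4 * d * s) ≤ γ := by
    rw [hτ, div_mul_eq_mul_div, div_le_iff₀ (by positivity)]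
    exact ht
  have hDk : (D : ℝ) * (τ / k) ≤ τ := by
    have : (D : ℝ) ≤ k := by exact_mod_cast hD
    calc (D : ℝ) * (τ / k) ≤ k * (τ / k) := mul_le_mul_of_nonneg_right this (by positivity)
      _ = τ := by field_simp
  rw [hτk]
  have hds : (2 : ℝ) ≤ d * s := by nlinarith
  have h1 : τ ≤ γ / 8 := by nlinarith
  have h2 : ((d : ℝ) * (τ + D * (τ / k))) * s ≤ 1 := by
    have h3 : (d : ℝ) * (τ + D * (τ / k)) ≤ d * (2 * τ) :=
      mul_le_mul_of_nonneg_left (by linarith) (by positivity)
    calc ((d : ℝ) * (τ + D * (τ / k))) * s ≤ (d * (2 * τ)) * s :=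
          mul_le_mul_of_nonneg_right h3 (by positivity)
      _ = (τ * (4 * d * s)) / 2 := by ring
      _ ≤ 1 := by linarith
  have h3 : ((d : ℝ) * (τ + D * (τ / k))) ^ h * (s : ℝ) ^ h ≤ 1 := by
    rw [← mul_pow]
    exact pow_le_one₀ (by positivity) h2
  have h4 : (S : ℝ) ≤ k * (s : ℝ) ^ (h + 1) := by exact_mod_cast hS
  have h5 : (S : ℝ) * (((d : ℝ) * (τ + D * (τ / k))) ^ h * (τ / k)) ≤ γ / 8 := by
    calc (S : ℝ) * (((d : ℝ) * (τ + D * (τ / k))) ^ h * (τ / k))
        ≤ (k * (s : ℝ) ^ (h + 1)) * (((d : ℝ) * (τ + D * (τ / k))) ^ h * (τ / k)) :=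
          mul_le_mul_of_nonneg_right h4 (by positivity)
      _ = (((d : ℝ) * (τ + D * (τ / k))) ^ h * (s : ℝ) ^ h) * (τ * s) := by
          rw [pow_succ]
          field_simp
      _ ≤ 1 * (τ * s) := mul_le_mul_of_nonneg_right h3 (by positivity)
      _ ≤ γ / 8 := by nlinarith
  linarith

/-- **The tradeoff** between the size and the number of variables which are read. -/
theorem tradeoff (d k n h s : ℕ) (γ : ℝ) (hγ : 0 < γ) (hd : 2 ≤ d) (hh : 1 ≤ h) (hhn : h ≤ n)
    (hk : Even k) (hdk : d ^ h ≤ k) (hnk : 4 * (n : ℝ) ≤ γ ^ 2 * k) (hs : 1 ≤ s)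
    (P : DBP (Var d k n) k) (hS : P.size ≤ k * s ^ h) (T M : Input d k n → ℕ)
    (R : Input d k n → Bool) (hrun : ∀ x, P.Run x (T x) (M x) (R x))
    (hag : (1 / 2 + γ) * Fintype.card (Input d k n) ≤
      (univ.filter (fun x => R x = bit (rootValue x))).card) :
    γ ^ 2 * (d : ℝ) ^ (n - h) * (k : ℝ) ^ (d - 1) * Fintype.card (Input d k n) ≤
      4 * d * s * ∑ x, (M x : ℝ) := by
  classical
  choose L hLR hLT hLM using hrun
  have hk1 : 1 ≤ k := le_trans (Nat.one_le_pow _ _ (by omega)) hdk
  have hk0 : (0 : ℝ) < k := by exact_mod_cast hk1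
  set N := Fintype.card (Input d k n) with hN
  have hNpos : 0 < N := by
    rw [hN, Fintype.card_fun, Fintype.card_fin]
    positivity
  have hNR : (0 : ℝ) < N := by exact_mod_cast hNpos
  set Err := univ.filter (fun x => ¬ R x = bit (rootValue x)) with hErr
  have hsplit : (univ.filter (fun x => R x = bit (rootValue x))).card + Err.card = N := by
    rw [hErr, card_filter_add_card_filter_not, card_univ]
  have hsplitR : ((univ.filter (fun x => R x = bit (rootValue x))).card : ℝ) + Err.card = N := by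
    exact_mod_cast hsplit
  have hErrle : (Err.card : ℝ) ≤ (1 / 2 - γ) * N := by linarith
  have hγ1 : γ ≤ 1 / 2 := by
    by_contra hcon
    push Not at hcon
    have h1 : (0 : ℝ) ≤ Err.card := by positivity
    nlinarith
  have hdsR : (0 : ℝ) < 4 * d * s := by
    have : (0 : ℝ) < d := by exact_mod_cast (by omega : 0 < d)
    have : (0 : ℝ) < s := by exact_mod_cast hs
    positivity
  set t := ⌊γ * (k : ℝ) ^ (d - 1) / (4 * d * s)⌋₊ with ht
  have ht1 : (t : ℝ) * (4 * d * s) ≤ γ * (k : ℝ) ^ (d - 1) := by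
    rw [← le_div_iff₀ hdsR]
    exact Nat.floor_le (by positivity)
  have ht2 : γ * (k : ℝ) ^ (d - 1) ≤ (t + 1) * (4 * d * s) := by
    rw [← div_le_iff₀ hdsR]
    exact (Nat.lt_floor_add_one _).le
  -- the bad inputs of a node
  set Bad : Node d n → Finset (Input d k n) := fun u =>
    univ.filter (fun x => ∃ p ∈ inn u, t < (asked P p (P.start :: L x)).card) with hBad
  have hbad : ∀ u ∈ dep d n (n - h), γ * N ≤ (Bad u).card := by
    intro u hu
    have hul : u.1.length = n - h := mem_dep.1 hu
    obtain ⟨m, rfl⟩ : ∃ m, h = m + 1 := ⟨h - 1, by omega⟩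
    have hum : u.1.length + (m + 1) = n := by omega
    set E := univ.filter (fun x : Input d k n =>
      ∀ q ∈ P.start :: L x, P.query q ≠ pos (valF x) u) with hE
    set B := univ.filter (fun x : Input d k n =>
      (∀ p ∈ inn u, (asked P p (P.start :: L x)).card ≤ t) ∧
      ∃ q ∈ P.start :: L x, P.query q = pos (valF x) u) with hB
    have hcov : N ≤ (Bad u).card + E.card + B.card := by
      rw [hN, ← card_univ]
      refine (card_le_card (?_ : (univ : Finset (Input d k n)) ⊆ Bad u ∪ E ∪ B)).trans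
        ((card_union_le _ _).trans (Nat.add_le_add_right (card_union_le _ _) _))
      intro x _
      by_cases h1 : ∃ p ∈ inn u, t < (asked P p (P.start :: L x)).card
      · exact mem_union_left _ (mem_union_left _ (mem_filter.2 ⟨mem_univ _, h1⟩))
      · by_cases h2 : ∀ q ∈ P.start :: L x, P.query q ≠ pos (valF x) u
        · exact mem_union_left _ (mem_union_right _ (mem_filter.2 ⟨mem_univ _, h2⟩))
        · refine mem_union_right _ (mem_filter.2 ⟨mem_univ _, ?_, ?_⟩)
          · push Not at h1
            exact h1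
          · push Not at h2
            exact h2
    have hcovR : (N : ℝ) ≤ (Bad u).card + E.card + B.card := by exact_mod_cast hcov
    have hEb : (E.card : ℝ) ≤ 2 * Err.card + γ / 2 * N := by
      refine not_read_bound P hk (by omega) u L R hLR E Err (fun x => by simp [hE])
        (fun x hx => mem_filter.2 ⟨mem_univ _, hx⟩) γ hγ.le ?_
      refine le_trans ?_ hnk
      have h1 : 1 + u.1.length ≤ n := by omega
      have h2 : (1 + (u.1.length : ℝ)) ≤ n := by exact_mod_cast h1
      linarith
    have hBb : (B.card : ℝ) ≤ γ / 2 * N := by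
      rcases Nat.eq_zero_or_pos t with ht0 | htpos
      · have : B = ∅ := by
          rw [eq_empty_iff_forall_notMem]
          intro x hx
          obtain ⟨h1, q, hq, h2⟩ := (mem_filter.1 hx).2
          have h3 := h1 u (mem_inn.2 ⟨List.suffix_refl _, by omega⟩)
          rw [ht0, Nat.le_zero, card_eq_zero, eq_empty_iff_forall_notMem] at h3
          apply h3 (P.query q)
          simp only [asked, mem_filter, List.mem_toFinset, List.mem_map]
          exact ⟨⟨q, hq, rfl⟩, by rw [h2, nodeOf_pos]⟩
        rw [this, card_empty, Nat.cast_zero]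
        positivity
      · refine (random_bound P t u m hk1 htpos (by omega) hum L R hLR B
          (fun x hx => (mem_filter.1 hx).2)).trans ?_
        apply mul_le_mul_of_nonneg_right _ (by positivity)
        refine beta_le d k m s t (inn u).card P.size γ hγ hγ1 hk1 hd hs ?_ hS ht1
        have := card_inn hd (m + 1) u hum
        omega
    linarith
  -- the number of variables which are read
  have htime : ∀ x, (t + 1) * ((dep d n (n - h)).filter (fun u => x ∈ Bad u)).card ≤ M x := by
    intro x
    have h1 := sum_askedT P (n - h) (P.start :: L x)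
    have h2 : ((P.start :: L x).map P.query).toFinset.card = M x := hLM x
    rw [h2] at h1
    refine le_trans ?_ h1
    calc (t + 1) * ((dep d n (n - h)).filter (fun u => x ∈ Bad u)).card
        = ∑ u ∈ (dep d n (n - h)).filter (fun u => x ∈ Bad u), (t + 1) := by
          rw [sum_const, smul_eq_mul, mul_comm]
      _ ≤ ∑ u ∈ (dep d n (n - h)).filter (fun u => x ∈ Bad u),
            (askedT P u (P.start :: L x)).card := by
          apply sum_le_sum
          intro u hu
          obtain ⟨p, hp, h3⟩ := (mem_filter.1 (mem_filter.1 hu).2).2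
          refine le_trans (Nat.succ_le_of_lt h3) (card_le_card ?_)
          intro w hw
          obtain ⟨h4, h5⟩ := mem_filter.1 hw
          rw [askedT, mem_filter]
          rw [← h5] at hp
          exact ⟨h4, mem_inn.1 hp⟩
      _ ≤ ∑ u ∈ dep d n (n - h), (askedT P u (P.start :: L x)).card :=
          sum_le_sum_of_subset (filter_subset _ _)
  have hsum : ∑ x, ((dep d n (n - h)).filter (fun u => x ∈ Bad u)).card =
      ∑ u ∈ dep d n (n - h), (Bad u).card := by
    simp only [card_filter]
    rw [sum_comm]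
    apply sum_congr rfl
    intro u _
    rw [← card_filter]
    congr 1
    ext x
    simp
  have h1 : (t + 1) * ∑ u ∈ dep d n (n - h), (Bad u).card ≤ ∑ x, M x := by
    rw [← hsum, mul_sum]
    exact sum_le_sum fun x _ => htime x
  have h1R : ((t : ℝ) + 1) * ∑ u ∈ dep d n (n - h), ((Bad u).card : ℝ) ≤ ∑ x, (M x : ℝ) := by
    exact_mod_cast h1
  have h2 : ((dep d n (n - h)).card : ℝ) * (γ * N) ≤ ∑ u ∈ dep d n (n - h), ((Bad u).card : ℝ) := by
    rw [← nsmul_eq_mul, ← sum_const]
    exact sum_le_sum hbad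
  have h3 : (d : ℝ) ^ (n - h) ≤ (dep d n (n - h)).card := by
    exact_mod_cast card_dep (d := d) (n := n) (j := n - h) (by omega)
  calc γ ^ 2 * (d : ℝ) ^ (n - h) * (k : ℝ) ^ (d - 1) * N
      = (γ * (k : ℝ) ^ (d - 1)) * ((d : ℝ) ^ (n - h) * (γ * N)) := by ring
    _ ≤ ((t + 1) * (4 * d * s)) * (((dep d n (n - h)).card : ℝ) * (γ * N)) :=
        mul_le_mul ht2 (mul_le_mul_of_nonneg_right h3 (by positivity)) (by positivity)
          (by positivity)
    _ ≤ ((t + 1) * (4 * d * s)) * ∑ u ∈ dep d n (n - h), ((Bad u).card : ℝ) :=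
        mul_le_mul_of_nonneg_left h2 (by positivity)
    _ = (4 * d * s) * (((t : ℝ) + 1) * ∑ u ∈ dep d n (n - h), ((Bad u).card : ℝ)) := by ring
    _ ≤ 4 * d * s * ∑ x, (M x : ℝ) := mul_le_mul_of_nonneg_left h1R hdsR.le

end Pool.Agent.W997.TS
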