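import Pool.Agent.W997.TS.Inputs

/-!
# Every node is relevant for most inputs
-/

set_option autoImplicit false

namespace Pool.Agent.W997.TS

open Finset

variable {d k n : ℕ}

/-- Changing a variable does not change the values of nodes not above it. -/
theorem valF_update (x : Input d k n) (w : Var d k n) (y : Fin k) : ∀ (j : ℕ) (v : Node d n),
    v.1.length + j = n → ¬ v.1 <:+ (nodeOf w).1 → valF (Function.update x w y) v = valF x v
  | 0, v, hv, hs => by
    rw [valF_eq, valF_eq x]
    have h1 : pos (valF (Function.update x w y)) v = pos (valF x) v := by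
      rw [pos_eq_iff]; intro h; omega
    rw [h1, Function.update_of_ne]
    intro h
    apply hs
    rw [← h, nodeOf_pos]
  | j + 1, v, hv, hs => by
    rw [valF_eq, valF_eq x]
    have h1 : pos (valF (Function.update x w y)) v = pos (valF x) v := by
      rw [pos_eq_iff]
      intro h s
      exact valF_update x w y j (kid v s) (by rw [kid_val h, List.length_cons]; omega)
        (fun h2 => hs ((suffix_kid h s).trans h2))
    rw [h1, Function.update_of_ne]
    intro h
    apply hs
    rw [← h, nodeOf_pos]

theorem valF_update' (x : Input d k n) (w : Var d k n) (y : Fin k) (v : Node d n)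
    (hs : ¬ v.1 <:+ (nodeOf w).1) : valF (Function.update x w y) v = valF x v := by
  obtain ⟨j, hj⟩ := Nat.exists_eq_add_of_le v.2
  exact valF_update x w y j v hj.symm hs

/-- Changing a variable at `v` or at a node not below `v` does not change the thrifty variable
of `v`. -/
theorem pos_update (x : Input d k n) (w : Var d k n) (y : Fin k) (v : Node d n)
    (hs : (nodeOf w).1.length ≤ v.1.length) :
    pos (valF (Function.update x w y)) v = pos (valF x) v := by
  rw [pos_eq_iff]
  intro h s
  apply valF_update'
  intro h1
  have := h1.length_le
  rw [kid_val h, List.length_cons] at this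
  omega

/-- The input in which the value of the node `u` is set to `y`. -/
def mod (u : Node d n) (x : Input d k n) (y : Fin k) : Input d k n :=
  Function.update x (pos (valF x) u) y

theorem pos_mod (u v : Node d n) (x : Input d k n) (y : Fin k) (h : u.1.length ≤ v.1.length) :
    pos (valF (mod u x y)) v = pos (valF x) v :=
  pos_update x _ y v (by rw [nodeOf_pos]; exact h)

theorem valF_mod_self (u : Node d n) (x : Input d k n) (y : Fin k) : valF (mod u x y) u = y := by
  rw [valF_eq, pos_mod u u x y le_rfl]
  exact Function.update_self _ _ _

theorem mod_mod (u : Node d n) (x : Input d k n) (y y' : Fin k) :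
    mod u (mod u x y) y' = mod u x y' := by
  unfold mod
  have : pos (valF (Function.update x (pos (valF x) u) y)) u = pos (valF x) u :=
    pos_mod u u x y le_rfl
  rw [this, Function.update_idem]

theorem mod_self (u : Node d n) (x : Input d k n) : mod u x (x (pos (valF x) u)) = x :=
  Function.update_eq_self _ _

/-- The variable of `v` which is relevant when the value of `u` is set to `y`. -/
def ent (u v : Node d n) (x : Input d k n) (y : Fin k) : Var d k n := pos (valF (mod u x y)) v

/-- The value of a strict ancestor. -/
theorem valF_mod_anc (u v : Node d n) (x : Input d k n) (y : Fin k)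
    (hv : v.1.length < u.1.length) : valF (mod u x y) v = x (ent u v x y) := by
  rw [valF_eq]
  change (mod u x y) (ent u v x y) = _
  unfold mod
  rw [Function.update_of_ne]
  intro h
  have h1 := congrArg nodeOf h
  rw [ent, nodeOf_pos, nodeOf_pos] at h1
  rw [h1] at hv
  omega

/-- Changing an entry of an ancestor. -/
theorem mod_update_anc (u v : Node d n) (x : Input d k n) (y c : Fin k) (w : Var d k n)
    (hw : nodeOf w = v) (hv : v.1.length < u.1.length) :
    mod u (Function.update x w c) y = Function.update (mod u x y) w c := by
  unfold mod
  rw [pos_update x w c u (by rw [hw]; omega)]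
  apply Function.update_comm
  intro h
  have h1 := congrArg nodeOf h
  rw [nodeOf_pos, hw] at h1
  rw [h1] at hv
  omega

theorem ent_update (u v : Node d n) (x : Input d k n) (y c : Fin k) (w : Var d k n)
    (hw : nodeOf w = v) (hv : v.1.length < u.1.length) :
    ent u v (Function.update x w c) y = ent u v x y := by
  unfold ent
  rw [mod_update_anc u v x y c w hw hv]
  exact pos_update _ w c v (by rw [hw])

theorem ent_ne (u v : Node d n) (x : Input d k n) (y y' : Fin k) (hv : v.1.length < n)
    (s : Fin d) (h : valF (mod u x y) (kid v s) ≠ valF (mod u x y') (kid v s)) :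
    ent u v x y ≠ ent u v x y' := by
  intro h1
  exact h ((pos_eq_iff _ _ v).1 h1 hv s)

/-- The set of inputs for which two values of `u` lead to the same value of `v`. -/
noncomputable def coll (u v : Node d n) (y y' : Fin k) : Finset (Input d k n) :=
  univ.filter (fun x => valF (mod u x y) v = valF (mod u x y') v)

theorem mem_coll {u v : Node d n} {y y' : Fin k} {x : Input d k n} :
    x ∈ coll u v y y' ↔ valF (mod u x y) v = valF (mod u x y') v := by
  simp [coll]

/-- The next node on the path to a descendant. -/
theorem exists_next {u v : Node d n} (h : v.1 <:+ u.1) (hlt : v.1.length < u.1.length) :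
    v.1.length < n ∧ ∃ s, (kid v s).1 <:+ u.1 := by
  have hvn : v.1.length < n := lt_of_lt_of_le hlt u.2
  refine ⟨hvn, ?_⟩
  obtain ⟨l, hl⟩ := h
  have hne : l ≠ [] := by
    rintro rfl
    rw [List.nil_append] at hl
    rw [hl] at hlt
    omega
  refine ⟨l.getLast hne, ?_⟩
  rw [kid_val hvn, ← hl]
  refine ⟨l.dropLast, ?_⟩
  conv_rhs => rw [← List.dropLast_append_getLast hne]
  simp

theorem coll_bound (u : Node d n) (y y' : Fin k) (hyy : y ≠ y') : ∀ (j : ℕ) (v : Node d n),
    v.1 <:+ u.1 → v.1.length + j = u.1.length →
      (coll u v y y').card * k ≤ j * Fintype.card (Input d k n)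
  | 0, v, hs, hl => by
    have h1 : v = u := Subtype.ext (hs.eq_of_length (by omega))
    subst h1
    have : coll v v y y' = ∅ := by
      rw [eq_empty_iff_forall_notMem]
      intro x hx
      rw [mem_coll, valF_mod_self, valF_mod_self] at hx
      exact hyy hx
    simp [this]
  | j + 1, v, hs, hl => by
    classical
    have hlt : v.1.length < u.1.length := by omega
    obtain ⟨hvn, s, hs'⟩ := exists_next hs hlt
    have h1 := coll_bound u y y' hyy j (kid v s) hs' (by rw [kid_val hvn, List.length_cons]; omega)
    set G := (coll u v y y') \ (coll u (kid v s) y y') with hG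
    have h2 : (coll u v y y').card ≤ (coll u (kid v s) y y').card + G.card := by
      refine (card_le_card (?_ : coll u v y y' ⊆ coll u (kid v s) y y' ∪ G)).trans
        (card_union_le _ _)
      intro x hx
      by_cases h : x ∈ coll u (kid v s) y y'
      · exact mem_union_left _ h
      · exact mem_union_right _ (mem_sdiff.2 ⟨hx, h⟩)
    have h3 : G.card * k ≤ Fintype.card (Input d k n) := by
      have h4 : (G ×ˢ (univ : Finset (Fin k))).card ≤ Fintype.card (Input d k n) := by
        rw [← card_univ (α := Input d k n)]
        refine card_le_card_of_injOn (fun p => Function.update p.1 (ent u v p.1 y) p.2)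
          (fun _ _ => mem_coe.2 (mem_univ _)) ?_
        rintro ⟨x, c⟩ hp ⟨x2, c2⟩ hp2 he
        have hx : x ∈ G := (mem_product.1 (mem_coe.1 hp)).1
        have hx2 : x2 ∈ G := (mem_product.1 (mem_coe.1 hp2)).1
        simp only at he
        -- the new input determines the entries
        have key : ∀ (x : Input d k n) (c : Fin k), x ∈ G →
            ent u v (Function.update x (ent u v x y) c) y = ent u v x y ∧
            Function.update (Function.update x (ent u v x y) c) (ent u v x y)
              ((Function.update x (ent u v x y) c)
                (ent u v (Function.update x (ent u v x y) c) y')) = x := by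
          intro x c hx
          obtain ⟨hx1, hx2⟩ := mem_sdiff.1 hx
          rw [mem_coll] at hx1 hx2
          rw [valF_mod_anc u v x y hlt, valF_mod_anc u v x y' hlt] at hx1
          have hne := ent_ne u v x y y' hvn s hx2
          have hnode : nodeOf (ent u v x y) = v := by rw [ent, nodeOf_pos]
          refine ⟨ent_update u v x y c _ hnode hlt, ?_⟩
          rw [ent_update u v x y' c _ hnode hlt, Function.update_of_ne hne.symm,
            Function.update_idem, ← hx1, Function.update_eq_self]
        obtain ⟨e1, e2⟩ := key x c hx
        obtain ⟨f1, f2⟩ := key x2 c2 hx2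
        rw [he] at e1 e2
        have e3 : ent u v x y = ent u v x2 y := e1.symm.trans f1
        rw [e3] at e2
        have e4 : x = x2 := e2.symm.trans f2
        subst e4
        have e5 : c = c2 := by
          have := congrFun he (ent u v x y)
          simpa using this
        rw [e5]
      rwa [card_product, card_univ, Fintype.card_fin] at h4
    calc (coll u v y y').card * k ≤ ((coll u (kid v s) y y').card + G.card) * k :=
          Nat.mul_le_mul_right _ h2
      _ = (coll u (kid v s) y y').card * k + G.card * k := by ring
      _ ≤ j * Fintype.card (Input d k n) + Fintype.card (Input d k n) := Nat.add_le_add h1 h3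
      _ = (j + 1) * Fintype.card (Input d k n) := by ring

/-- The sign of a value. -/
def chi (c : Fin k) : ℤ := if c.val % 2 = 0 then 1 else -1

theorem chi_mul_self (c : Fin k) : chi c * chi c = 1 := by
  unfold chi; split_ifs <;> norm_num

theorem chi_mul_le (c c' : Fin k) : chi c * chi c' ≤ 1 := by
  unfold chi; split_ifs <;> norm_num

/-- The involution which changes the lowest bit. -/
def flip (hk : Even k) (c : Fin k) : Fin k :=
  if h : c.val % 2 = 0 then ⟨c.val + 1, by
    obtain ⟨r, hr⟩ := hk
    have := c.2
    omega⟩ else ⟨c.val - 1, by have := c.2; omega⟩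

theorem flip_val (hk : Even k) (c : Fin k) :
    (flip hk c).val = if c.val % 2 = 0 then c.val + 1 else c.val - 1 := by
  unfold flip; split_ifs <;> rfl

theorem chi_flip (hk : Even k) (c : Fin k) : chi (flip hk c) = - chi c := by
  unfold chi
  rw [flip_val]
  split_ifs with h1 h2 h2
  · omega
  · rfl
  · norm_num
  · omega

theorem flip_flip (hk : Even k) (c : Fin k) : flip hk (flip hk c) = c := by
  apply Fin.ext
  rw [flip_val, flip_val]
  split_ifs <;> omega

theorem flip_ne (hk : Even k) (c : Fin k) : flip hk c ≠ c := by
  intro h
  have := chi_flip hk c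
  rw [h] at this
  unfold chi at this
  split_ifs at this <;> omega

theorem sum_chi (hk : Even k) : ∑ c : Fin k, chi c = 0 := by
  refine sum_involution (fun c _ => flip hk c) ?_ ?_ ?_ ?_
  · intro c _
    rw [chi_flip]
    ring
  · intro c _ _
    exact flip_ne hk c
  · intro c _
    exact mem_univ _
  · intro c _
    exact flip_flip hk c

/-- The root. -/
def rootN (d n : ℕ) : Node d n := ⟨[], Nat.zero_le n⟩

theorem rootValue_eq (x : Input d k n) : rootValue x = valF x (rootN d n) := rfl

/-- The cross terms. -/
theorem cross (hk : Even k) (u : Node d n) (y y' : Fin k) (hyy : y ≠ y')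
    (hu : 0 < u.1.length) :
    (∑ x : Input d k n, chi (valF (mod u x y) (rootN d n)) * chi (valF (mod u x y') (rootN d n)))
      * (k : ℤ) ≤ u.1.length * Fintype.card (Input d k n) := by
  classical
  set v := rootN d n with hv
  have hlt : v.1.length < u.1.length := hu
  obtain ⟨hvn, s, hs⟩ := exists_next (v := v) (List.nil_suffix) hlt
  set C := coll u (kid v s) y y' with hC
  have h1 := coll_bound u y y' hyy (u.1.length - 1) (kid v s) hs (by
    rw [kid_val hvn, List.length_cons, hv]
    change 0 + 1 + _ = _
    omega)
  have h2 : ∑ x ∈ Cᶜ, chi (valF (mod u x y) v) * chi (valF (mod u x y') v) = 0 := by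
    refine sum_involution (fun x _ => Function.update x (ent u v x y) (flip hk (x (ent u v x y))))
      ?_ ?_ ?_ ?_
    · intro x hx
      have hx2 : valF (mod u x y) (kid v s) ≠ valF (mod u x y') (kid v s) := by
        rw [mem_compl, hC, mem_coll] at hx
        exact hx
      have hnode : nodeOf (ent u v x y) = v := by rw [ent, nodeOf_pos]
      have hne := ent_ne u v x y y' hvn s hx2
      simp only [valF_mod_anc u v _ _ hlt]
      rw [ent_update u v x y _ _ hnode hlt, ent_update u v x y' _ _ hnode hlt,
        Function.update_self, Function.update_of_ne hne.symm, chi_flip]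
      ring
    · intro x _ _ h
      have := congrFun h (ent u v x y)
      rw [Function.update_self] at this
      exact flip_ne hk _ this
    · intro x hx
      rw [mem_compl, hC, mem_coll] at hx ⊢
      have hnode : nodeOf (ent u v x y) = v := by rw [ent, nodeOf_pos]
      rw [mod_update_anc u v x y _ _ hnode hlt, mod_update_anc u v x y' _ _ hnode hlt]
      have h3 : ¬ (kid v s).1 <:+ (nodeOf (ent u v x y)).1 := by
        rw [hnode]
        intro h4
        have := h4.length_le
        rw [kid_val hvn, List.length_cons] at this
        omega
      rw [valF_update' _ _ _ _ h3, valF_update' _ _ _ _ h3]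
      exact hx
    · intro x _
      have hnode : nodeOf (ent u v x y) = v := by rw [ent, nodeOf_pos]
      rw [ent_update u v x y _ _ hnode hlt, Function.update_self, flip_flip,
        Function.update_idem, Function.update_eq_self]
  have h3 : ∑ x : Input d k n, chi (valF (mod u x y) v) * chi (valF (mod u x y') v) ≤ C.card := by
    rw [← sum_add_sum_compl C, h2, add_zero]
    refine (sum_le_sum fun x _ => chi_mul_le _ _).trans ?_
    rw [sum_const]
    simp
  have h4 : ((C.card * k : ℕ) : ℤ) ≤ ((u.1.length - 1) * Fintype.card (Input d k n) : ℕ) := by
    exact_mod_cast h1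
  have h5 : ((u.1.length - 1) * Fintype.card (Input d k n) : ℕ) ≤
      u.1.length * Fintype.card (Input d k n) := Nat.mul_le_mul_right _ (by omega)
  calc _ ≤ (C.card : ℤ) * k := mul_le_mul_of_nonneg_right h3 (by positivity)
    _ = ((C.card * k : ℕ) : ℤ) := by push_cast; ring
    _ ≤ ((u.1.length - 1) * Fintype.card (Input d k n) : ℕ) := h4
    _ ≤ _ := by exact_mod_cast h5

/-- The bias of the answer as a function of the value of `u`. -/
def bias (u : Node d n) (x : Input d k n) : ℤ :=
  ∑ y : Fin k, chi (valF (mod u x y) (rootN d n))

theorem sum_bias_sq (hk : Even k) (u : Node d n) :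
    ∑ x : Input d k n, (bias u x) ^ 2 ≤
      k * (1 + u.1.length) * Fintype.card (Input d k n) := by
  classical
  rcases Nat.eq_zero_or_pos u.1.length with h0 | hpos
  · have hu : u = rootN d n := by
      apply Subtype.ext
      exact List.length_eq_zero_iff.1 h0
    have h1 : ∀ x : Input d k n, bias u x = 0 := by
      intro x
      unfold bias
      rw [hu]
      simp only [valF_mod_self]
      exact sum_chi hk
    simp only [h1]
    norm_num
    positivity
  · set N : ℤ := (Fintype.card (Input d k n) : ℤ) with hN
    have h1 : ∑ x : Input d k n, (bias u x) ^ 2 = ∑ y : Fin k, ∑ y' : Fin k,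
        ∑ x : Input d k n, chi (valF (mod u x y) (rootN d n)) *
          chi (valF (mod u x y') (rootN d n)) := by
      have : ∀ x : Input d k n, (bias u x) ^ 2 = ∑ y : Fin k, ∑ y' : Fin k,
          chi (valF (mod u x y) (rootN d n)) * chi (valF (mod u x y') (rootN d n)) := by
        intro x
        rw [sq, bias, sum_mul_sum]
      rw [sum_congr rfl (fun x _ => this x), sum_comm]
      apply sum_congr rfl
      intro y _
      exact sum_comm
    rcases Nat.eq_zero_or_pos k with hk0 | hkpos
    · subst hk0
      rw [h1]
      simp
    have hkz : (0 : ℤ) < k := by exact_mod_cast hkpos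
    have h2 : ∀ y y' : Fin k, (∑ x : Input d k n, chi (valF (mod u x y) (rootN d n)) *
          chi (valF (mod u x y') (rootN d n))) * (k : ℤ) ≤
          (if y = y' then (k : ℤ) * N else 0) + u.1.length * N := by
      intro y y'
      by_cases hyy : y = y'
      · subst hyy
        rw [if_pos rfl]
        simp only [chi_mul_self]
        rw [sum_const, card_univ, nsmul_eq_mul, mul_one, ← hN]
        have : 0 ≤ (u.1.length : ℤ) * N := by positivity
        nlinarith
      · rw [if_neg hyy, zero_add]
        exact cross hk u y y' hyy hpos
    have h3 : (∑ x : Input d k n, (bias u x) ^ 2) * (k : ℤ) ≤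
        (k * (1 + u.1.length) * N) * k := by
      rw [h1, sum_mul]
      calc ∑ y : Fin k, (∑ y' : Fin k, ∑ x : Input d k n,
            chi (valF (mod u x y) (rootN d n)) * chi (valF (mod u x y') (rootN d n))) * (k : ℤ)
          = ∑ y : Fin k, ∑ y' : Fin k, (∑ x : Input d k n,
            chi (valF (mod u x y) (rootN d n)) * chi (valF (mod u x y') (rootN d n))) * (k : ℤ) := by
            apply sum_congr rfl; intro y _; rw [sum_mul]
        _ ≤ ∑ y : Fin k, ∑ y' : Fin k, ((if y = y' then (k : ℤ) * N else 0) +
              u.1.length * N) := sum_le_sum fun y _ => sum_le_sum fun y' _ => h2 y y'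
        _ = (k * (1 + u.1.length) * N) * k := by
            simp only [sum_add_distrib, sum_ite_eq, mem_univ, if_true, sum_const, card_univ,
              Fintype.card_fin, nsmul_eq_mul]
            ring
    exact le_of_mul_le_mul_right h3 hkz

end Pool.Agent.W997.TS
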