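import Pool.Agent.W997.TS.Fiber

/-!
# The transition, and the bound for a fixed background
-/

set_option autoImplicit false

namespace Pool.Agent.W997.TS

open Finset

variable {d k n : ℕ}

/-- Every path from `v` to a leaf (`j` levels below `v`) meets `L`. -/
def Blk (L : Node d n → Prop) : ℕ → Node d n → Prop
  | 0, v => L v
  | j + 1, v => L v ∨ ∀ s, Blk L j (kid v s)

theorem Blk.of_mem {L : Node d n → Prop} {j : ℕ} {v : Node d n} (h : L v) : Blk L j v := by
  cases j with
  | zero => exact h
  | succ j => exact Or.inl h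

theorem Blk.mono {L L' : Node d n → Prop} (h : ∀ c, L c → L' c) :
    ∀ {j : ℕ} {v : Node d n}, Blk L j v → Blk L' j v
  | 0, _, hb => h _ hb
  | j + 1, _, hb => by
    rcases hb with hb | hb
    · exact Or.inl (h _ hb)
    · exact Or.inr fun s => Blk.mono h (hb s)

theorem blk_exists {L : Node d n → Prop} : ∀ (j : ℕ) (v : Node d n), v.1.length + j = n →
    Blk L j v → ¬ L v → ∃ w : Node d n, v.1 <:+ w.1 ∧ w.1.length < n ∧ ∀ s, L (kid w s)
  | 0, v, _, hb, hL => absurd hb hL
  | j + 1, v, hv, hb, hL => by
    have hvn : v.1.length < n := by omega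
    rcases hb with hb | hb
    · exact absurd hb hL
    · by_cases h : ∀ s, L (kid v s)
      · exact ⟨v, List.suffix_refl _, hvn, h⟩
      · push Not at h
        obtain ⟨s, hs⟩ := h
        obtain ⟨w, h1, h2, h3⟩ := blk_exists j (kid v s) (by rw [kid_val hvn]; simp; omega)
          (hb s) hs
        exact ⟨w, (suffix_kid hvn s).trans h1, h2, h3⟩

theorem trans_str (u : Node d n) {L L' : Node d n → Prop} (i : Node d n)
    (h1 : ∀ c, L c → c ≠ i → L' c) (h2 : i.1.length < n → ∀ s, L' (kid i s)) :
    ∀ (j : ℕ) (a : Node d n), a.1.length + (j + 1) = n → (∀ s, Blk L j (kid a s)) →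
      (¬ ∀ s, Blk L' j (kid a s)) → Str u (j + 1) a L
  | 0, a, _, hb, _ => hb
  | j + 1, a, ha, hb, hb' => by
    have han : a.1.length < n := by omega
    push Not at hb'
    obtain ⟨s, hs⟩ := hb'
    have hws : (kid a s).1.length + (j + 1) = n := by
      rw [kid_val han, List.length_cons]; omega
    have hwn : (kid a s).1.length < n := by omega
    have hs2 : ¬ ((L' (kid a s)) ∨ ∀ s', Blk L' j (kid (kid a s) s')) := hs
    rw [not_or] at hs2
    have hLw : ¬ L (kid a s) := by
      intro hL
      by_cases hi : kid a s = i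
      · apply hs2.2
        intro s'
        apply Blk.of_mem
        rw [hi]
        exact h2 (hi ▸ hwn) s'
      · exact hs2.1 (h1 _ hL hi)
    have hb2 : ∀ s', Blk L j (kid (kid a s) s') := by
      rcases (hb s : (L (kid a s)) ∨ ∀ s', Blk L j (kid (kid a s) s')) with h | h
      · exact absurd h hLw
      · exact h
    refine ⟨s, trans_str u i h1 h2 j (kid a s) hws hb2 hs2.2, ?_⟩
    by_cases hall : ∀ s', s' ≠ s → L (kid a s')
    · exact Or.inl hall
    · right
      push Not at hall
      obtain ⟨s', hs', hL'⟩ := hall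
      obtain ⟨w, h3, h4, h5⟩ := blk_exists (j + 1) (kid a s')
        (by rw [kid_val han, List.length_cons]; omega) (hb s') hL'
      exact ⟨s', w, hs', h3, h4, h5⟩

variable (P : DBP (Var d k n) k)

theorem backward (z : Node d n → Fin k) (u : Node d n) (m : ℕ) (hu : u.1.length + (m + 1) = n) :
    ∀ (l : List P.State) (q : P.State), (∃ q' ∈ q :: l, P.query q' = pos z u) →
      (∀ s, Blk (fun c => Live P z c (q :: l)) m (kid u s)) ∨
        ∃ q2 l2, q2 :: l2 <:+ q :: l ∧ Str u (m + 1) u (fun c => Live P z c (q2 :: l2))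
  | l, q, h => by
    have hun : u.1.length < n := by omega
    by_cases hq : P.query q = pos z u
    · left
      intro s
      apply Blk.of_mem
      change Live P z (kid u s) (q :: l)
      left
      rw [par_kid hun]
      exact hq
    · cases l with
      | nil =>
        obtain ⟨q', hq', h1⟩ := h
        rw [List.mem_singleton] at hq'
        subst hq'
        exact absurd h1 hq
      | cons q1 l1 =>
        have h' : ∃ q' ∈ q1 :: l1, P.query q' = pos z u := by
          obtain ⟨q', hq', h1⟩ := h
          rcases List.mem_cons.1 hq' with rfl | hq'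
          · exact absurd h1 hq
          · exact ⟨q', hq', h1⟩
        rcases backward z u m hu l1 q1 h' with hB | ⟨q2, l2, hs, hS⟩
        · by_cases hB' : ∀ s, Blk (fun c => Live P z c (q :: q1 :: l1)) m (kid u s)
          · exact Or.inl hB'
          · right
            refine ⟨q1, l1, List.suffix_cons _ _, ?_⟩
            set i := nodeOf (P.query q) with hi
            by_cases hthr : P.query q = pos z i
            · refine trans_str u i (L' := fun c => Live P z c (q :: q1 :: l1)) ?_ ?_ m u hu hB hB'
              · intro c hc hci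
                right
                refine ⟨?_, hc⟩
                intro h1
                apply hci
                rw [hi, h1, nodeOf_pos]
              · intro hin s
                left
                rw [par_kid hin]
                exact hthr
            · exfalso
              apply hB'
              intro s
              refine (hB s).mono ?_
              intro c hc
              right
              refine ⟨?_, hc⟩
              intro h1
              apply hthr
              rw [hi, h1, nodeOf_pos]
        · exact Or.inr ⟨q2, l2, hs.trans (List.suffix_cons _ _), hS⟩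

theorem path_suffix {x : Input d k n} {r : Bool} : ∀ (l : List P.State) (q : P.State),
    P.IsPath x q l r → ∀ q2 l2, q2 :: l2 <:+ q :: l → P.IsPath x q2 l2 r
  | [], q, h, q2, l2, hs => by
    rcases List.suffix_cons_iff.1 hs with hs | hs
    · obtain ⟨rfl, rfl⟩ := List.cons.inj hs
      exact h
    · exact absurd (List.suffix_nil.1 hs) (List.cons_ne_nil _ _)
  | q1 :: l, q, h, q2, l2, hs => by
    rcases List.suffix_cons_iff.1 hs with hs | hs
    · obtain ⟨rfl, rfl⟩ := List.cons.inj hs
      exact h
    · exact path_suffix l q1 h.2 q2 l2 hs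

theorem asked_mono (p : Node d n) {l l' : List P.State} (h : l <:+ l') :
    asked P p l ⊆ asked P p l' := by
  intro w hw
  simp only [asked, mem_filter, List.mem_toFinset, List.mem_map] at hw ⊢
  obtain ⟨⟨q', hq', rfl⟩, h1⟩ := hw
  exact ⟨⟨q', h.mem hq', rfl⟩, h1⟩

/-- **The bound for a fixed background.** -/
theorem fixed_background (g : Input d k n) (t : ℕ) (u : Node d n) (m : ℕ) (hk : 1 ≤ k)
    (ht : 1 ≤ t) (hd : 1 ≤ d) (hu : u.1.length + (m + 1) = n)
    (A : Finset (Node d n → Fin k))
    (hA : ∀ z ∈ A, ∃ (l : List P.State) (r : Bool), P.IsPath (inp g z) P.start l r ∧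
      (∀ p ∈ inn u, (asked P p (P.start :: l)).card ≤ t) ∧
      ∃ q ∈ P.start :: l, P.query q = pos z u) :
    (A.card : ℝ) ≤ ((inn u).card * ((t : ℝ) / (k : ℝ) ^ d) + P.size *
      (((d : ℝ) * ((t : ℝ) / (k : ℝ) ^ (d - 1) + (inn u).card * ((t : ℝ) / (k : ℝ) ^ d))) ^ m *
        ((t : ℝ) / (k : ℝ) ^ d))) * (k : ℝ) ^ Fintype.card (Node d n) := by
  classical
  have hun : u.1.length < n := by omega
  have hV : Valid u u (∅ : Finset (Node d n)) := by
    constructor <;> intro c hc <;> exact absurd hc (notMem_empty c)
  set S1 : Node d n → Finset (Node d n → Fin k) := fun w =>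
    ev P g t u P.start ∅ (fun L => ∀ s, L (kid w s)) with hS1
  set S2 : P.State → Finset (Node d n → Fin k) := fun q =>
    ev P g t u q ∅ (Str u (m + 1) u) with hS2
  have hsub : A ⊆ (inn u).biUnion S1 ∪ univ.biUnion S2 := by
    intro z hz
    obtain ⟨l, r, hp, hb, hq⟩ := hA z hz
    rcases backward P z u m hu l P.start hq with hB | ⟨q2, l2, hs, hS⟩
    · apply mem_union_left
      rw [mem_biUnion]
      obtain ⟨w, hw1, hw2, hw3⟩ : ∃ w : Node d n, u.1 <:+ w.1 ∧ w.1.length < n ∧
          ∀ s, Live P z (kid w s) (P.start :: l) := by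
        by_cases hall : ∀ s, Live P z (kid u s) (P.start :: l)
        · exact ⟨u, List.suffix_refl _, hun, hall⟩
        · push Not at hall
          obtain ⟨s, hs⟩ := hall
          obtain ⟨w, h1, h2, h3⟩ := blk_exists m (kid u s)
            (by rw [kid_val hun, List.length_cons]; omega) (hB s) hs
          exact ⟨w, (suffix_kid hun s).trans h1, h2, h3⟩
      exact ⟨w, mem_inn.2 ⟨hw1, hw2⟩, (mem_ev P).2
        ⟨l, r, hp, fun c hc => absurd hc (notMem_empty c), hb, hw3⟩⟩
    · apply mem_union_right
      rw [mem_biUnion]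
      exact ⟨q2, mem_univ _, (mem_ev P).2 ⟨l2, r, path_suffix P l P.start hp q2 l2 hs,
        fun c hc => absurd hc (notMem_empty c),
        fun p hpi => (card_le_card (asked_mono P p hs)).trans (hb p hpi), hS⟩⟩
  have b1 : ∀ w ∈ inn u, ((S1 w).card : ℝ) ≤
      ((t : ℝ) / (k : ℝ) ^ d) * (k : ℝ) ^ Fintype.card (Node d n) := by
    intro w hw
    have := ev_base P g t u P.start hk ht hV hw (mem_inn.1 hw).1 0 (by simp) (S1 w) (by
      intro z hz
      exact (mem_ev P).1 hz)
    simpa using this
  have b2 : ∀ q, ((S2 q).card : ℝ) ≤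
      ((d : ℝ) * ((t : ℝ) / (k : ℝ) ^ (d - 1) + (inn u).card * ((t : ℝ) / (k : ℝ) ^ d))) ^ m *
        ((t : ℝ) / (k : ℝ) ^ d) * (k : ℝ) ^ Fintype.card (Node d n) := by
    intro q
    have := ev_bound P g t u q hk ht hd m u ∅ 0 hu (List.suffix_refl _) hV (by simp)
    simpa using this
  have h1 : A.card ≤ ∑ w ∈ inn u, (S1 w).card + ∑ q : P.State, (S2 q).card :=
    (card_le_card hsub).trans ((card_union_le _ _).trans
      (Nat.add_le_add card_biUnion_le card_biUnion_le))
  have h2 : (A.card : ℝ) ≤ ∑ w ∈ inn u, ((S1 w).card : ℝ) + ∑ q : P.State, ((S2 q).card : ℝ) := by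
    exact_mod_cast h1
  refine h2.trans ?_
  rw [add_mul]
  apply add_le_add
  · refine (sum_le_sum b1).trans ?_
    rw [sum_const, nsmul_eq_mul, mul_assoc]
  · refine (sum_le_sum fun q _ => b2 q).trans ?_
    rw [sum_const, nsmul_eq_mul, card_univ, mul_assoc (P.size : ℝ)]
    exact le_refl _

end Pool.Agent.W997.TS
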